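import Mathlib

/-! The greedy colouring process with lists of two colours: definitions. -/

namespace Pool.Agent.MP_81f5b7_pr.H66

open Finset
open scoped Classical

/-- colours -/
abbrev C3 : Type := Fin 3

/-- indicator -/
noncomputable def ind (P : Prop) : ℝ := if P then 1 else 0

section Prob

variable {ι : Type} [DecidableEq ι]

/-- expectation over a random subset of `s` that holds each element with probability `q` -/
noncomputable def Ex (q : ℝ) (s : Finset ι) (F : Finset ι → ℝ) : ℝ :=
  ∑ A ∈ s.powerset, q ^ A.card * (1 - q) ^ (s.card - A.card) * F A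

/-- expectation over a list of `m` independent random subsets of `ι` -/
noncomputable def EL [Fintype ι] (q : ℝ) : ℕ → (List (Finset ι) → ℝ) → ℝ
  | 0, f => f []
  | m + 1, f => Ex q univ fun B => EL q m fun l => f (B :: l)

/-- probability for a list of `m` independent random subsets -/
noncomputable def PL [Fintype ι] (q : ℝ) (m : ℕ) (P : List (Finset ι) → Prop) : ℝ :=
  EL q m fun l => ind (P l)

/-- union of the sets of a list -/
def un (l : List (Finset ι)) : Finset ι := l.foldr (· ∪ ·) ∅

/-- the list of the first `m` rows of a set of cells -/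
def rows [Fintype ι] (m : ℕ) (W : Finset (ℕ × ι)) : List (Finset ι) :=
  (List.range m).map fun j => univ.filter fun e => (j, e) ∈ W

/-- no set of the list has two elements -/
def NM (l : List (Finset ι)) : Prop := ∀ B ∈ l, B.card ≤ 1

/-- an adaptive exploration: in state `s` it looks at the fresh elements `Q s` -/
structure Mach (σ ι : Type) [DecidableEq ι] where
  Q : σ → Finset ι
  nx : σ → Finset ι → σ
  fr : σ → Finset ι
  Inv : σ → Prop
  loc : ∀ s B, nx s B = nx s (B ∩ Q s)
  inv : ∀ s B, Inv s → Inv (nx s B)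
  sub : ∀ s, Inv s → Q s ⊆ fr s
  shr : ∀ s B, Inv s → fr (nx s B) ⊆ fr s \ Q s

/-- the state after `k` steps -/
def Mach.at {σ : Type} (M : Mach σ ι) (W : Finset ι) (s : σ) (k : ℕ) : σ :=
  (fun t => M.nx t W)^[k] s

end Prob

section Col

variable {V : Type} [Fintype V] [DecidableEq V]

/-- the pair `e` gets two colours -/
def bi (σ : V → C3) (e : Sym2 V) : Prop := ¬(e.map σ).IsDiag

/-- one greedy step on the set of colourings that are still proper -/
noncomputable def gr (S : Finset (V → C3)) (B : Finset (Sym2 V)) : Finset (V → C3) :=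
  if B.card ≤ 1 ∧ ∃ σ ∈ S, ∀ e ∈ B, bi σ e then S.filter fun σ => ∀ e ∈ B, bi σ e else S

/-- the greedy process -/
noncomputable def run (S : Finset (V → C3)) (l : List (Finset (Sym2 V))) : Finset (V → C3) :=
  l.foldl gr S

/-- the colour `c` is allowed at `v`: it is `τ v` on `Z` and differs from `τ v` elsewhere -/
def al (τ : V → C3) (Z : Finset V) (v : V) (c : C3) : Prop :=
  (v ∈ Z → c = τ v) ∧ (v ∉ Z → c ≠ τ v)

/-- colourings from the lists -/
noncomputable def S0 (τ : V → C3) (Z : Finset V) : Finset (V → C3) :=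
  univ.filter fun σ => ∀ v, al τ Z v (σ v)

/-- vertices whose list misses `c` -/
def Ty (τ : V → C3) (Z : Finset V) (c : C3) : Finset V := univ.filter fun v => v ∉ Z ∧ τ v = c

/-- the three types of lists are nearly equally frequent -/
def Ok (τ : V → C3) (Z : Finset V) (η : ℝ) : Prop :=
  ∀ c, (1 / 3 - η) * Fintype.card V ≤ (Ty τ Z c).card

/-- the probability of a pair in one tick is tiny -/
def Tiny (V : Type) [Fintype V] (q : ℝ) : Prop := 0 < q ∧ q * (Fintype.card V : ℝ) ^ 4 = 1

/-- the time after `m` ticks -/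
def tm (V : Type) [Fintype V] (q : ℝ) (m : ℕ) : ℝ := m * q * Fintype.card V

/-- frozen vertices -/
def Fz (S : Finset (V → C3)) (v : V) : Prop := ∀ σ ∈ S, ∀ σ' ∈ S, σ v = σ' v

/-- vertices frozen to the colour `a` -/
noncomputable def Fa (S : Finset (V → C3)) (a : C3) : Finset V :=
  univ.filter fun v => ∀ σ ∈ S, σ v = a

/-- vertices forced to have the colour of `v` -/
noncomputable def cls (S : Finset (V → C3)) (v : V) : Finset V :=
  univ.filter fun y => ∀ σ ∈ S, σ y = σ v

/-- free vertices whose colour is determined once the free vertex `z.1` has the colour `z.2` -/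
noncomputable def Cl (S : Finset (V → C3)) (z : V × C3) : Finset V :=
  univ.filter fun v => ¬Fz S z.1 ∧ (∃ σ ∈ S, σ z.1 = z.2) ∧ ¬Fz S v ∧
    ∀ σ ∈ S, ∀ σ' ∈ S, σ z.1 = z.2 → σ' z.1 = z.2 → σ v = σ' v

/-- at most two colours at each vertex, and closure under majority -/
def Mj (S : Finset (V → C3)) : Prop :=
  ∀ σ₁ ∈ S, ∀ σ₂ ∈ S, ∀ σ₃ ∈ S, (∀ v, σ₁ v = σ₂ v ∨ σ₁ v = σ₃ v ∨ σ₂ v = σ₃ v) ∧
    (fun v => if σ₁ v = σ₂ v then σ₁ v else σ₃ v) ∈ S

/-- at some tick both ends of the pair are determined by `z` -/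
def Hit (z : V × C3) : Finset (V → C3) → List (Finset (Sym2 V)) → Prop
  | _, [] => False
  | S, B :: l => (∃ x y, x ≠ y ∧ B = {s(x, y)} ∧ x ∈ Cl S z ∧ y ∈ Cl S z) ∨ Hit z (gr S B) l

/-- the number of offered pairs of distinct vertices with the same colour -/
noncomputable def mono (σ : V → C3) (l : List (Finset (Sym2 V))) : ℕ :=
  (l.map fun B => (B.filter fun e => ¬e.IsDiag ∧ ¬bi σ e).card).sum

/-- a colouring of `C` that is compatible with every colouring of the rest -/
def Aut (τ : V → C3) (Z : Finset V) (Γ : Finset (Sym2 V)) (C : Finset V) (χ : V → C3) : Prop :=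
  ∀ x ∈ C, al τ Z x (χ x) ∧ ∀ y, y ≠ x → s(x, y) ∈ Γ → al τ Z y (χ x) → y ∈ C ∧ χ y ≠ χ x

/-- `z` lies in a small self-contained colouring -/
def Good (τ : V → C3) (Z : Finset V) (K : ℕ) (Γ : Finset (Sym2 V)) (z : V × C3) : Prop :=
  ∃ C χ, Aut τ Z Γ C χ ∧ z.1 ∈ C ∧ χ z.1 = z.2 ∧ C.card ≤ K

/-- allowed pairs of a vertex and a colour that are not good -/
noncomputable def BadL (τ : V → C3) (Z : Finset V) (K : ℕ) (Γ : Finset (Sym2 V)) :
    Finset (V × C3) := univ.filter fun z => al τ Z z.1 z.2 ∧ ¬Good τ Z K Γ z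

/-- vertices with an allowed colour outside all small self-contained colourings that avoid `u` -/
noncomputable def BadV (τ : V → C3) (Z : Finset V) (K : ℕ) (Γ : Finset (Sym2 V)) (u : V) :
    Finset V := univ.filter fun v => v ∈ Z ∨ ∃ b, al τ Z v b ∧
      ¬∃ C χ, Aut τ Z Γ C χ ∧ v ∈ C ∧ χ v = b ∧ C.card ≤ K ∧ u ∉ C

/-- a chain of implications -/
def Chain (τ : V → C3) (Z : Finset V) (Γ : Finset (Sym2 V)) (L : ℕ) (v : ℕ → V) (a : ℕ → C3) :
    Prop :=
  Set.InjOn v (Set.Iic L) ∧ ∀ i < L, v (i + 1) ∉ Z ∧ a i ≠ τ (v (i + 1)) ∧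
    a (i + 1) ≠ τ (v (i + 1)) ∧ a i ≠ a (i + 1) ∧ s(v i, v (i + 1)) ∈ Γ

/-- `D` holds every vertex that is joined to a vertex of `D` whose colour it could take -/
def Cld (τ : V → C3) (Z : Finset V) (σ : V → C3) (D : Finset V) (l : List (Finset (Sym2 V))) :
    Prop := ∀ B ∈ l, ∀ w ∈ D, ∀ y, y ≠ w → s(w, y) ∈ B → al τ Z y (σ w) → y ∈ D

/-- pairs with one colour only appear inside the closure of `A` -/
def Star (τ : V → C3) (Z : Finset V) (σ : V → C3) (A : Finset V) (l : List (Finset (Sym2 V))) :
    Prop := ∀ l₁ B l₂, l = l₁ ++ B :: l₂ → ∀ D, A ⊆ D → Cld τ Z σ D l₁ →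
      ∀ x y, x ≠ y → s(x, y) ∈ B → σ x = σ y → x ∈ D

/-- the number of vertices of `D` with the colour `a` -/
def sz (σ : V → C3) (D : Finset V) (a : C3) : ℕ := (D.filter fun v => σ v = a).card

/-- the pairs in the order `π` -/
def ordl (π : Sym2 V ≃ Fin (Fintype.card (Sym2 V))) : List (Finset (Sym2 V)) :=
  List.ofFn fun i => {π.symm i}

/-! ### The lazy labelling -/

/-- open ticks, labels, finished rounds -/
structure St (V : Type) where
  s : ℕ
  lab : V → Option C3
  d : V → ℕ

/-- the next round; the colour `a` goes first -/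
noncomputable def pick (a : C3) (t : St V) : Option (V × C3) :=
  if h : ∃ w, t.lab w = some a ∧ t.d w < t.s then some (h.choose, a)
  else if h : ∃ z : V × C3, t.lab z.1 = some z.2 ∧ t.d z.1 < t.s then some h.choose else none

/-- vertices without label that could take the colour `c` -/
noncomputable def tg (τ : V → C3) (t : St V) (c : C3) : Finset V :=
  univ.filter fun y => t.lab y = none ∧ τ y ≠ c

/-- the cells looked at -/
noncomputable def lzQ (τ : V → C3) (a : C3) (t : St V) : Finset (ℕ × Sym2 V) :=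
  match pick a t with
  | none => ∅
  | some z => (tg τ t z.2).image fun y => (t.d z.1, s(z.1, y))

/-- one step -/
noncomputable def lzN (τ : V → C3) (a : C3) (m : ℕ) (t : St V) (W : Finset (ℕ × Sym2 V)) : St V :=
  match pick a t with
  | none => ⟨min (t.s + 1) m, t.lab, t.d⟩
  | some z => ⟨t.s, fun y => if y ∈ tg τ t z.2 ∧ (t.d z.1, s(z.1, y)) ∈ W
      then some (-τ y - z.2) else t.lab y, Function.update t.d z.1 (t.d z.1 + 1)⟩

/-- the state after `k` steps, started from the labels `σ` on `A` -/
noncomputable def lz (τ : V → C3) (a : C3) (m : ℕ) (A : Finset V) (σ : V → C3)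
    (W : Finset (ℕ × Sym2 V)) (k : ℕ) : St V :=
  (fun t => lzN τ a m t W)^[k] ⟨0, fun v => if v ∈ A then some (σ v) else none, fun _ => 0⟩

/-- the colour of the round -/
noncomputable def rc (a : C3) (t : St V) : Option C3 := (pick a t).map Prod.snd

/-- vertices of type `c` without label -/
noncomputable def St.U (τ : V → C3) (t : St V) (c : C3) : ℕ :=
  (univ.filter fun y => t.lab y = none ∧ τ y = c).card

/-- vertices with the label `c` -/
noncomputable def St.L (t : St V) (c : C3) : ℕ := (univ.filter fun y => t.lab y = some c).card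

/-- finished rounds of the colour `c` -/
noncomputable def St.N (t : St V) (c : C3) : ℕ := ∑ y ∈ univ.filter fun y => t.lab y = some c, t.d y

/-- new labels on vertices of type `c` -/
noncomputable def lzX (τ : V → C3) (a : C3) (t : St V) (W : Finset (ℕ × Sym2 V)) (c : C3) : ℕ :=
  match pick a t with
  | none => 0
  | some z => ((tg τ t z.2).filter fun y => τ y = c ∧ (t.d z.1, s(z.1, y)) ∈ W).card

/-- their mean, without the factor `q` -/
noncomputable def lzM (τ : V → C3) (a : C3) (t : St V) (c : C3) : ℕ :=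
  if rc a t = none ∨ rc a t = some c then 0 else t.U τ c

end Col

end Pool.Agent.MP_81f5b7_pr.H66
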