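import Pool.Agent.MP_81f5b7_pr.H66.Spec

/-! From the model with ticks to the graph process. -/

namespace Pool.Agent.MP_81f5b7_pr.H66

open Finset Filter
open scoped Classical

theorem card_Ty_sum {n : ℕ} (τ : Fin n → C3) (c : C3) :
    (Ty (Sum.elim id τ) (univ.image Sum.inl) c).card = Nat.card {v : Fin n // τ v = c} := by
  rw [Nat.card_eq_fintype_card, Fintype.card_subtype]
  refine Eq.trans (congrArg Finset.card (Finset.ext fun v => ?_))
    (card_image_of_injective _ (Sum.inr_injective (α := C3)))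
  cases v <;> simp [Ty]

theorem final (hM : SMAIN) (hL : SLINK) (hG : SGRAPH) (τ : ∀ n : ℕ, Fin n → Fin 3)
    (hτ : ∀ i : Fin 3, Tendsto (fun n : ℕ => (Nat.card {v : Fin n // τ n v = i} : ℝ) / n) atTop
      (nhds (1 / 3))) (ε : ℝ) (hε : 0 < ε) :
    Tendsto (fun n : ℕ =>
      (Nat.card {π : Sym2 (Fin 3 ⊕ Fin n) ≃ Fin (Fintype.card (Sym2 (Fin 3 ⊕ Fin n))) //
        ∃ H : SimpleGraph (Fin 3 ⊕ Fin n),
          (∀ e : Sym2 (Fin 3 ⊕ Fin n), ¬e.IsDiag → (e ∈ H.edgeSet ↔ (SimpleGraph.fromEdgeSet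
            (E0 (τ n) ∪ {f | f ∈ H.edgeSet ∧ π f < π e} ∪ {e})).Colorable 3)) ∧
          ∃ c : H.Coloring (Fin 3), ∃ i : Fin 3,
            (1 / 3 + ε) * ((n : ℝ) + 3) ≤ (Nat.card {v // c v = i} : ℝ)} : ℝ) /
      (Nat.card (Sym2 (Fin 3 ⊕ Fin n) ≃ Fin (Fintype.card (Sym2 (Fin 3 ⊕ Fin n)))) : ℝ))
      atTop (nhds 0) := by
  refine tendsto_order.2 ⟨fun κ hκ => Eventually.of_forall fun n => hκ.trans_le (by positivity),
    fun κ hκ => ?_⟩
  obtain ⟨η, N, hη, h⟩ := hM ε (κ / 2) hε (half_pos hκ)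
  have h1 : ∀ᶠ n : ℕ in atTop, ∀ i : Fin 3,
      1 / 3 - η / 2 < (Nat.card {v : Fin n // τ n v = i} : ℝ) / n :=
    eventually_all.2 fun i => (tendsto_order.1 (hτ i)).1 _ (by linarith)
  filter_upwards [h1, eventually_ge_atTop N, eventually_ge_atTop ⌈2 / η⌉₊, eventually_gt_atTop 0]
    with n a1 a2 a3 a4
  have hc : Fintype.card (C3 ⊕ Fin n) = n + 3 := by simp [add_comm]
  have hn : (0 : ℝ) < n := by exact_mod_cast a4
  obtain ⟨q, m, q0, q1, hP⟩ := h (C3 ⊕ Fin n) (Sum.elim id (τ n)) (univ.image Sum.inl) (by omega)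
    fun c => by
      have b1 := a1 c
      have b2 : 2 / η ≤ n := (Nat.le_ceil _).trans (Nat.cast_le.2 a3)
      rw [lt_div_iff₀ hn] at b1
      rw [div_le_iff₀ hη] at b2
      rw [card_Ty_sum, hc]
      push_cast
      nlinarith
  refine lt_of_le_of_lt (le_trans ?_ ((hL _ _ (fun σ => ∃ a, (1 / 3 + ε) *
    Fintype.card (C3 ⊕ Fin n) ≤ sz σ univ a) q m q0 q1).trans hP)) (half_lt_self hκ)
  refine div_le_div_of_nonneg_right (Nat.cast_le.2 (Nat.card_le_card_of_injective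
    (Subtype.map id ?_) (Subtype.map_injective _ Function.injective_id))) (Nat.cast_nonneg _)
  rintro π ⟨H, hH, c, i, hi⟩
  obtain ⟨σ, hσ, a, ha⟩ := hG n (τ n) π H hH c i
  refine ⟨σ, hσ, a, ?_⟩
  rw [ha, hc]
  push_cast
  exact hi

end Pool.Agent.MP_81f5b7_pr.H66
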