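import Pool.Agent.MP_81f5b7_pr.H66.Spec

/-! Small determined sets are rarely hit twice. -/

set_option linter.unusedSectionVars false

namespace Pool.Agent.MP_81f5b7_pr.H66

open Finset
open scoped Classical

namespace HIT

variable {V : Type} [Fintype V] [DecidableEq V] {S : Finset (V → C3)} {q : ℝ}

theorem lam_nonneg (h0 : 0 ≤ q) (S : Finset (V → C3)) (l : List (Finset (Sym2 V))) :
    0 ≤ lam q S l := by
  induction l generalizing S with
  | nil => exact le_rfl
  | cons B l ih => exact add_nonneg (mul_nonneg h0 (Nat.cast_nonneg _)) (ih _)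

theorem sub_gr (h : Mj S) (z : V × C3) (B : Finset (Sym2 V)) : Cl (gr S B) z ⊆ Cl S z ∪
    (Cl S z).biUnion fun x => (univ.filter fun w : V × C3 => s(x, w.1) ∈ B).biUnion (Cl S) := by
  rcases gr_cases S B with e | ⟨x, y, -, rfl, -, e⟩ <;> rw [e]
  · exact subset_union_left
  · intro v hv
    rcases grow h hv with h1 | ⟨h1, b, h2⟩ | ⟨h1, b, h2⟩
    · exact mem_union_left _ h1
    · exact mem_union_right _ (mem_biUnion.2 ⟨x, h1, mem_biUnion.2 ⟨(y, b), by simp, h2⟩⟩)
    · exact mem_union_right _ (mem_biUnion.2 ⟨y, h1, mem_biUnion.2 ⟨(x, b), by simp, h2⟩⟩)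

theorem card_gr (h : Mj S) (z : V × C3) (B : Finset (Sym2 V)) :
    ((Cl (gr S B) z).card : ℝ) ≤ (Cl S z).card +
      ∑ x ∈ Cl S z, ∑ w : V × C3, (Cl S w).card * ind (s(x, w.1) ∈ B) := by
  have h1 := (card_le_card (sub_gr h z B)).trans ((card_union_le _ _).trans (Nat.add_le_add_left
    (card_biUnion_le.trans (sum_le_sum fun _ _ => card_biUnion_le)) _))
  refine (Nat.cast_le.2 h1).trans (le_of_eq ?_)
  push_cast
  congr 1
  refine sum_congr rfl fun x _ => ?_
  rw [sum_filter]
  refine sum_congr rfl fun w _ => ?_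
  unfold ind
  split_ifs <;> simp

end HIT

open HIT

theorem rowHIT : SHIT := by
  intro V _ _ q m S z M K h0 h1 hS hK
  induction m generalizing S M with
  | zero =>
    rw [PL_false fun l hl h => by rw [List.length_eq_zero_iff.1 hl] at h; exact h.2]
    positivity
  | succ m ih =>
    by_cases hM : M < 0
    · rw [PL_false fun l _ h => (hM.trans_le (lam_nonneg h0 S l)).not_ge h.1]
      positivity
    by_cases hc : K ≤ (Cl S z).card
    · refine (PL_le_one h0 h1).trans (le_add_of_le_of_nonneg ?_ (by positivity))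
      rw [one_le_div hK]
      nlinarith [Real.one_le_exp (not_lt.1 hM)]
    have hE := Real.exp_pos (M - q * AA S)
    refine (Ex_mono (G := fun B => ∑ x ∈ Cl S z, ∑ y ∈ Cl S z, ind (s(x, y) ∈ B) +
      (((Cl S z).card + ∑ x ∈ Cl S z, ∑ w : V × C3, (Cl S w).card * ind (s(x, w.1) ∈ B)) *
        (Real.exp (M - q * AA S) / K) + m * q * K ^ 2)) h0 h1 fun B _ => ?_).trans ?_
    · refine (EL_mono (g := fun l => ∑ x ∈ Cl S z, ∑ y ∈ Cl S z, ind (s(x, y) ∈ B) +
        ind (lam q (gr S B) l ≤ M - q * AA S ∧ Hit z (gr S B) l)) h0 h1 fun l _ => ?_).trans ?_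
      · have p : ∀ x, 0 ≤ ∑ y ∈ Cl S z, ind (s(x, y) ∈ B) :=
          fun _ => sum_nonneg fun _ _ => ind_nonneg _
        refine ind_le (add_nonneg (sum_nonneg fun x _ => p x) (ind_nonneg _)) ?_
        rintro ⟨a1, ⟨x, y, -, e, hx, hy⟩ | a2⟩
        · refine le_add_of_le_of_nonneg (le_trans ?_ (single_le_sum (fun x _ => p x) hx))
            (ind_nonneg _)
          exact (ind_pos (P := s(x, y) ∈ B) (by simp [e])).ge.trans
            (single_le_sum (f := fun y => ind (s(x, y) ∈ B)) (fun _ _ => ind_nonneg _) hy)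
        · rw [ind_pos ⟨le_sub_iff_add_le'.2 a1, a2⟩]
          exact le_add_of_nonneg_left (sum_nonneg fun x _ => p x)
      · rw [EL_add, EL_const]
        refine add_le_add_right ((ih _ _ (hS.gr B)).trans (add_le_add_left ?_ _)) _
        rw [mul_div_assoc]
        exact mul_le_mul_of_nonneg_right (card_gr hS z B) (by positivity)
    · simp only [Ex_add, Ex_mul', Ex_sum, Ex_mul, Ex_const, Ex_mem (mem_univ _), sum_const,
        nsmul_eq_mul, ← sum_mul]
      have a1 : ∑ w : V × C3, ((Cl S w).card : ℝ) = AA S := by simp [AA]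
      have a2 : (1 + q * AA S) * Real.exp (M - q * AA S) ≤ Real.exp M := by
        rw [← sub_add_cancel M (q * AA S), Real.exp_add, sub_add_cancel, mul_comm]
        exact mul_le_mul_of_nonneg_left (by linarith [Real.add_one_le_exp (q * AA S)]) hE.le
      have a3 : (0 : ℝ) ≤ (Cl S z).card := Nat.cast_nonneg _
      have a4 := div_le_div_of_nonneg_right (mul_le_mul_of_nonneg_left a2 a3) hK.le
      have a5 := mul_le_mul_of_nonneg_right (mul_self_le_mul_self a3 (not_le.1 hc).le) h0
      rw [a1]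
      push_cast
      refine le_trans (le_of_eq ?_) ((add_le_add (add_le_add a4 a5)
        (le_refl (m * q * K ^ 2))).trans (le_of_eq ?_)) <;> ring

theorem rowGROW : OfGROW := by
  intro hL hH T φ κ η K hφ hκ hη
  obtain ⟨M, hM⟩ : ∃ M, M = 4 / (φ * κ) := ⟨_, rfl⟩
  obtain ⟨K', hK⟩ : ∃ K', K' = 12 * ((K : ℝ) + 1) * Real.exp M / (η * κ) := ⟨_, rfl⟩
  have M0 : 0 < M := by rw [hM]; positivity
  have K0 : 0 < K' := by rw [hK]; positivity
  refine ⟨max 2 ⌈12 * |T| * K' ^ 2 / (η * κ)⌉₊, fun V _ _ q m S hN hq hT hS hne hF => ?_⟩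
  have n2 := (le_max_left _ _).trans hN
  obtain ⟨h0, h1, -, -⟩ := hq.le n2
  have n0 : (0 : ℝ) < Fintype.card V := by exact_mod_cast (by omega : 0 < Fintype.card V)
  have n3 : 12 * |T| * K' ^ 2 / (η * κ) ≤ Fintype.card V :=
    (Nat.le_ceil _).trans (Nat.cast_le.2 ((le_max_right _ _).trans hN))
  refine (PL_mono (Q := fun l => M ≤ lam q S l ∨ η * Fintype.card V ≤
    ∑ z : V × C3, ind ((Cl S z).card ≤ K) * ind (lam q S l ≤ M ∧ Hit z S l)) h0 h1
    fun l _ h => (le_total M _).imp_right fun a => h.trans ?a).trans ((PL_or h0 h1 _ _).trans ?b)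
  rotate_left
  · rw [card_filter_ind]
    refine sum_le_sum fun z _ => ind_le (mul_nonneg (ind_nonneg _) (ind_nonneg _)) fun b => ?_
    rw [ind_pos b.1, ind_pos ⟨a, b.2⟩, one_mul]
  have a1 := (PL_markov (m := m) (P := fun l => M ≤ lam q S l) h0 h1 M0
    (fun l _ => lam_nonneg h0 S l) fun _ _ h => h).trans
    (div_le_div_of_nonneg_right (hL V q m S φ n2 hq hS hne hφ hF) M0.le)
  have a2 : 2 / φ / M = κ / 2 := by rw [hM]; field_simp; ring
  have a3 : m * q * K' ^ 2 ≤ η * κ / 12 := by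
    rw [div_le_iff₀ (by positivity)] at n3
    have : m * q * Fintype.card V ≤ |T| := hT.trans (le_abs_self T)
    refine le_of_mul_le_mul_right ?_ n0
    nlinarith [mul_le_mul_of_nonneg_right this (sq_nonneg K')]
  have a4 : K * Real.exp M / K' ≤ η * κ / 12 := by
    rw [div_le_iff₀ K0, hK]
    have : η * κ / 12 * (12 * ((K : ℝ) + 1) * Real.exp M / (η * κ)) = (K + 1) * Real.exp M := by
      field_simp
    rw [this]
    nlinarith [Real.exp_pos M]
  refine (add_le_add a1 (PL_markov h0 h1 (mul_pos hη n0) (fun l _ => sum_nonneg fun _ _ =>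
    mul_nonneg (ind_nonneg _) (ind_nonneg _)) fun _ _ h => h)).trans ?_
  rw [a2, EL_sum, ← le_sub_iff_add_le', div_le_iff₀ (mul_pos hη n0)]
  refine (sum_le_card_nsmul _ _ (η * κ / 6) fun z _ => ?_).trans (le_of_eq ?_)
  · rw [EL_mul]
    by_cases b : (Cl S z).card ≤ K
    · rw [ind_pos b, one_mul]
      refine (hH V q m S z M K' h0 h1 hS K0).trans ?_
      have := div_le_div_of_nonneg_right (mul_le_mul_of_nonneg_right
        (Nat.cast_le (α := ℝ).2 b) (Real.exp_pos M).le) K0.le
      linarith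
    · rw [ind_neg b, zero_mul]
      positivity
  · simp only [card_univ, Fintype.card_prod, Fintype.card_fin, nsmul_eq_mul]
    push_cast
    ring

end Pool.Agent.MP_81f5b7_pr.H66
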