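import Pool.Agent.MP_81f5b7_pr.H66.Defs

/-! Expectations over random subsets. -/

set_option linter.unusedSectionVars false

namespace Pool.Agent.MP_81f5b7_pr.H66

open Finset
open scoped Classical

theorem ind_pos {P : Prop} (h : P) : ind P = 1 := if_pos h

theorem ind_neg {P : Prop} (h : ¬P) : ind P = 0 := if_neg h

theorem ind_nonneg (P : Prop) : 0 ≤ ind P := by unfold ind; split_ifs <;> norm_num

theorem ind_le_one (P : Prop) : ind P ≤ 1 := by unfold ind; split_ifs <;> norm_num

theorem ind_le {P : Prop} {x : ℝ} (h0 : 0 ≤ x) (h : P → 1 ≤ x) : ind P ≤ x := by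
  unfold ind; split_ifs with hP; exacts [h hP, h0]

theorem ind_mono {P Q : Prop} (h : P → Q) : ind P ≤ ind Q :=
  ind_le (ind_nonneg Q) fun hP => (ind_pos (h hP)).ge

theorem ind_or (P Q : Prop) : ind (P ∨ Q) ≤ ind P + ind Q :=
  ind_le (add_nonneg (ind_nonneg _) (ind_nonneg _)) fun h => h.elim
    (fun h => by rw [ind_pos h]; linarith [ind_nonneg Q])
    fun h => by rw [ind_pos h]; linarith [ind_nonneg P]

theorem ind_exists {α : Type} (s : Finset α) (P : α → Prop) :
    ind (∃ a ∈ s, P a) ≤ ∑ a ∈ s, ind (P a) :=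
  ind_le (sum_nonneg fun _ _ => ind_nonneg _) fun ⟨_, ha, h⟩ =>
    (ind_pos h).ge.trans (single_le_sum (f := fun a => ind (P a)) (fun _ _ => ind_nonneg _) ha)

theorem ind_not (P : Prop) : ind (¬P) = 1 - ind P := by
  by_cases h : P
  · rw [ind_pos h, ind_neg (not_not.2 h), sub_self]
  · rw [ind_pos h, ind_neg h, sub_zero]

theorem card_filter_ind {α : Type} (s : Finset α) (P : α → Prop) [DecidablePred P] :
    ((s.filter P).card : ℝ) = ∑ a ∈ s, ind (P a) := by
  rw [card_filter, Nat.cast_sum]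
  refine sum_congr rfl fun a _ => ?_
  unfold ind
  split_ifs <;> simp

section Ex

variable {ι : Type} [DecidableEq ι] {q : ℝ} {s t : Finset ι} {F G : Finset ι → ℝ}

@[simp] theorem Ex_empty (F : Finset ι → ℝ) : Ex q ∅ F = F ∅ := by simp [Ex]

theorem Ex_insert {a : ι} (h : a ∉ s) (F : Finset ι → ℝ) :
    Ex q (insert a s) F = q * Ex q s (fun A => F (insert a A)) + (1 - q) * Ex q s F := by
  unfold Ex
  rw [sum_powerset_insert h, add_comm, mul_sum, mul_sum, card_insert_of_notMem h]
  congr 1 <;> refine sum_congr rfl fun A hA => ?_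
  · have hA' := mem_powerset.1 hA
    rw [card_insert_of_notMem fun h' => h (hA' h'), Nat.add_sub_add_right, pow_succ]
    ring
  · rw [Nat.succ_sub (card_le_card (mem_powerset.1 hA)), pow_succ]
    ring

theorem Ex_congr (h : ∀ A ⊆ s, F A = G A) : Ex q s F = Ex q s G :=
  sum_congr rfl fun A hA => by rw [h A (mem_powerset.1 hA)]

theorem Ex_mono (h0 : 0 ≤ q) (h1 : q ≤ 1) (h : ∀ A ⊆ s, F A ≤ G A) : Ex q s F ≤ Ex q s G :=
  sum_le_sum fun A hA => mul_le_mul_of_nonneg_left (h A (mem_powerset.1 hA))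
    (mul_nonneg (pow_nonneg h0 _) (pow_nonneg (sub_nonneg.2 h1) _))

theorem Ex_add (F G : Finset ι → ℝ) : Ex q s (fun A => F A + G A) = Ex q s F + Ex q s G := by
  simp only [Ex, mul_add, sum_add_distrib]

theorem Ex_sub (F G : Finset ι → ℝ) : Ex q s (fun A => F A - G A) = Ex q s F - Ex q s G := by
  simp only [Ex, mul_sub, sum_sub_distrib]

theorem Ex_mul (c : ℝ) (F : Finset ι → ℝ) : Ex q s (fun A => c * F A) = c * Ex q s F := by
  simp only [Ex, mul_sum, mul_left_comm]

theorem Ex_mul' (c : ℝ) (F : Finset ι → ℝ) : Ex q s (fun A => F A * c) = Ex q s F * c := by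
  simp only [mul_comm _ c, Ex_mul]

theorem Ex_sum {α : Type} (u : Finset α) (F : α → Finset ι → ℝ) :
    Ex q s (fun A => ∑ a ∈ u, F a A) = ∑ a ∈ u, Ex q s (F a) := by
  simp only [Ex, mul_sum]
  exact sum_comm

@[simp] theorem Ex_const (c : ℝ) : Ex q s (fun _ => c) = c := by
  induction s using Finset.induction_on with
  | empty => simp
  | insert a s h ih => rw [Ex_insert h, ih]; ring

theorem Ex_nonneg (h0 : 0 ≤ q) (h1 : q ≤ 1) (h : ∀ A ⊆ s, 0 ≤ F A) : 0 ≤ Ex q s F :=
  (Ex_const (q := q) (s := s) 0).ge.trans (Ex_mono h0 h1 h)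

theorem Ex_le (h0 : 0 ≤ q) (h1 : q ≤ 1) {c : ℝ} (h : ∀ A ⊆ s, F A ≤ c) : Ex q s F ≤ c :=
  (Ex_mono h0 h1 h).trans_eq (Ex_const c)

theorem Ex_swap {κ : Type} [DecidableEq κ] (p : ℝ) (u : Finset κ) (F : Finset ι → Finset κ → ℝ) :
    Ex q s (fun A => Ex p u (F A)) = Ex p u fun B => Ex q s fun A => F A B := by
  simp only [Ex, mul_sum]
  rw [sum_comm]
  exact sum_congr rfl fun _ _ => sum_congr rfl fun _ _ => by ring

theorem Ex_union (h : Disjoint s t) (F : Finset ι → ℝ) :
    Ex q (s ∪ t) F = Ex q s fun A => Ex q t fun B => F (A ∪ B) := by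
  induction s using Finset.induction_on generalizing F with
  | empty => simp
  | insert a s ha ih =>
    rw [disjoint_insert_left] at h
    rw [insert_union, Ex_insert (by simp [ha, h.1]), Ex_insert ha, ih h.2, ih h.2]
    simp only [insert_union]

theorem Ex_split (h : t ⊆ s) (F : Finset ι → ℝ) :
    Ex q s F = Ex q t fun A => Ex q (s \ t) fun B => F (A ∪ B) := by
  rw [← Ex_union disjoint_sdiff, union_sdiff_of_subset h]

theorem union_inter_of {A B : Finset ι} (hA : A ⊆ t) (hB : B ⊆ s \ t) : (A ∪ B) ∩ t = A := by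
  ext x
  have := @hA x
  have := @hB x
  simp only [mem_inter, mem_union, mem_sdiff] at *
  tauto

theorem Ex_inter (h : t ⊆ s) (F : Finset ι → ℝ) : Ex q s (fun A => F (A ∩ t)) = Ex q t F := by
  rw [Ex_split h]
  refine Ex_congr fun A hA => ?_
  rw [Ex_congr (G := fun _ => F A) fun B hB => by rw [union_inter_of hA hB], Ex_const]

theorem Ex_prod (f g : ι → ℝ) :
    Ex q s (fun A => ∏ i ∈ s, if i ∈ A then f i else g i) = ∏ i ∈ s, (q * f i + (1 - q) * g i) := by
  induction s using Finset.induction_on with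
  | empty => simp
  | insert a s ha ih =>
    rw [Ex_insert ha, prod_insert ha, ← ih, add_mul, mul_assoc, mul_assoc, ← Ex_mul (f a),
      ← Ex_mul (g a)]
    congr 2 <;> refine Ex_congr fun A hA => ?_
    · rw [prod_insert ha, if_pos (mem_insert_self _ _)]
      congr 1
      exact prod_congr rfl fun i hi => by simp [mem_insert, ne_of_mem_of_not_mem hi ha]
    · rw [prod_insert ha, if_neg fun h => ha (hA h)]

theorem Ex_prod' (f : ι → ℝ) : Ex q s (fun A => ∏ i ∈ A, f i) = ∏ i ∈ s, (1 - q + q * f i) := by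
  rw [Ex_congr (G := fun A => ∏ i ∈ s, if i ∈ A then f i else 1) fun A hA => by
    rw [prod_ite_mem, inter_eq_right.2 hA], Ex_prod]
  exact prod_congr rfl fun _ _ => by ring

theorem Ex_pow (h : t ⊆ s) (r : ℝ) :
    Ex q s (fun A => r ^ (A ∩ t).card) = (1 - q + q * r) ^ t.card := by
  rw [Ex_inter h fun A => r ^ A.card, ← prod_const, ← Ex_prod']
  simp

theorem Ex_mem {i : ι} (h : i ∈ s) : Ex q s (fun A => ind (i ∈ A)) = q := by
  rw [← insert_erase h, Ex_insert (notMem_erase i s)]
  rw [Ex_congr (G := fun _ => 1) fun A _ => ind_pos (mem_insert_self _ _),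
    Ex_congr (F := fun A => ind (i ∈ A)) (G := fun _ => 0) fun A hA =>
      ind_neg fun h' => notMem_erase i s (hA h')]
  simp

theorem Ex_mem₂ {i j : ι} (hi : i ∈ s) (hj : j ∈ s) (h : i ≠ j) :
    Ex q s (fun A => ind (i ∈ A ∧ j ∈ A)) = q ^ 2 := by
  rw [← insert_erase hi, Ex_insert (notMem_erase i s)]
  rw [Ex_congr (G := fun A => ind (j ∈ A)) fun A _ => by simp [h.symm],
    Ex_congr (F := fun A => ind (i ∈ A ∧ j ∈ A)) (G := fun _ => 0) fun A hA =>
      ind_neg fun h' => notMem_erase i s (hA h'.1), Ex_mem (mem_erase.2 ⟨h.symm, hj⟩)]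
  simp [pow_two]

/-- the contribution of the one-element sets -/
theorem Ex_single (h0 : 0 ≤ q) (h1 : q ≤ 1) (h : ∀ A ⊆ s, 0 ≤ F A) :
    q * (1 - q) ^ (s.card - 1) * ∑ e ∈ s, F {e} ≤ Ex q s F := by
  rw [mul_sum]
  have e : ∑ e ∈ s, q * (1 - q) ^ (s.card - 1) * F {e} = ∑ A ∈ s.image fun e => ({e} : Finset ι),
      q ^ A.card * (1 - q) ^ (s.card - A.card) * F A := by
    rw [sum_image fun _ _ _ _ h => singleton_injective h]
    simp
  rw [e]
  refine sum_le_sum_of_subset_of_nonneg (fun A hA => ?_) fun A hA _ => mul_nonneg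
    (mul_nonneg (pow_nonneg h0 _) (pow_nonneg (sub_nonneg.2 h1) _)) (h A (mem_powerset.1 hA))
  obtain ⟨e, he, rfl⟩ := mem_image.1 hA
  simpa using he

theorem half_le (h0 : 0 ≤ q) (h1 : q ≤ 1) {N : ℕ} (h : q * N ≤ 1 / 2) :
    q / 2 ≤ q * (1 - q) ^ (N - 1) := by
  have h2 : 1 + ((N - 1 : ℕ) : ℝ) * (-q) ≤ (1 + -q) ^ (N - 1) := one_add_mul_le_pow (by linarith) _
  have h3 : ((N - 1 : ℕ) : ℝ) ≤ N := Nat.cast_le.2 (Nat.sub_le _ _)
  rw [← sub_eq_add_neg] at h2
  nlinarith [mul_le_mul_of_nonneg_left h3 h0, mul_le_mul_of_nonneg_left h2 h0]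

theorem Ex_image {κ : Type} [DecidableEq κ] {f : ι → κ} (hf : Set.InjOn f s) (F : Finset κ → ℝ) :
    Ex q (s.image f) F = Ex q s fun A => F (A.image f) := by
  induction s using Finset.induction_on generalizing F with
  | empty => simp
  | insert a s ha ih =>
    have h2 : Set.InjOn f s := hf.mono (by simp)
    have h3 : f a ∉ s.image f := fun h => by
      obtain ⟨b, hb, e⟩ := mem_image.1 h
      exact ha (hf (by simp [hb]) (by simp) e ▸ hb)
    rw [image_insert, Ex_insert h3, Ex_insert ha, ih h2, ih h2]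
    simp only [image_insert]

/-- union of two independent random sets -/
theorem Ex_cup (p : ℝ) (F : Finset ι → ℝ) :
    Ex q s (fun A => Ex p s fun B => F (A ∪ B)) = Ex (1 - (1 - q) * (1 - p)) s F := by
  induction s using Finset.induction_on generalizing F with
  | empty => simp
  | insert a s ha ih =>
    simp only [Ex_insert ha, Ex_add, Ex_mul, insert_union, union_insert, insert_idem]
    rw [ih fun A => F (insert a A), ih F]
    ring

end Ex

section EL

variable {ι : Type} [DecidableEq ι] [Fintype ι] {q : ℝ} {m : ℕ} {f g : List (Finset ι) → ℝ}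

@[simp] theorem EL_zero (f : List (Finset ι) → ℝ) : EL q 0 f = f [] := rfl

theorem EL_succ (m : ℕ) (f : List (Finset ι) → ℝ) :
    EL q (m + 1) f = Ex q univ fun B => EL q m fun l => f (B :: l) := rfl

theorem EL_congr (h : ∀ l, l.length = m → f l = g l) : EL q m f = EL q m g := by
  induction m generalizing f g with
  | zero => exact h [] rfl
  | succ m ih => exact Ex_congr fun B _ => ih fun l hl => h _ (by simp [hl])

theorem EL_mono (h0 : 0 ≤ q) (h1 : q ≤ 1) (h : ∀ l, l.length = m → f l ≤ g l) :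
    EL q m f ≤ EL q m g := by
  induction m generalizing f g with
  | zero => exact h [] rfl
  | succ m ih => exact Ex_mono h0 h1 fun B _ => ih fun l hl => h _ (by simp [hl])

theorem EL_add (f g : List (Finset ι) → ℝ) :
    EL q m (fun l => f l + g l) = EL q m f + EL q m g := by
  induction m generalizing f g with
  | zero => rfl
  | succ m ih => simp only [EL_succ, ih, Ex_add]

theorem EL_mul (c : ℝ) (f : List (Finset ι) → ℝ) : EL q m (fun l => c * f l) = c * EL q m f := by
  induction m generalizing f with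
  | zero => rfl
  | succ m ih => simp only [EL_succ, ih, Ex_mul]

theorem EL_sum {α : Type} (u : Finset α) (f : α → List (Finset ι) → ℝ) :
    EL q m (fun l => ∑ a ∈ u, f a l) = ∑ a ∈ u, EL q m (f a) := by
  induction m generalizing f with
  | zero => rfl
  | succ m ih => simp only [EL_succ, ih, Ex_sum]

@[simp] theorem EL_const (c : ℝ) : EL (ι := ι) q m (fun _ => c) = c := by
  induction m with
  | zero => rfl
  | succ m ih => simp only [EL_succ, ih, Ex_const]

theorem EL_nonneg (h0 : 0 ≤ q) (h1 : q ≤ 1) (h : ∀ l, l.length = m → 0 ≤ f l) : 0 ≤ EL q m f :=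
  (EL_const (ι := ι) (q := q) (m := m) 0).ge.trans (EL_mono h0 h1 h)

theorem EL_le (h0 : 0 ≤ q) (h1 : q ≤ 1) {c : ℝ} (h : ∀ l, l.length = m → f l ≤ c) :
    EL q m f ≤ c := (EL_mono h0 h1 h).trans_eq (EL_const c)

theorem EL_append (m k : ℕ) (f : List (Finset ι) → ℝ) :
    EL q (m + k) f = EL q m fun l => EL q k fun l' => f (l ++ l') := by
  induction m generalizing f with
  | zero => simp
  | succ m ih => rw [Nat.add_right_comm]; simp only [EL_succ, ih, List.cons_append]

theorem mem_un {l : List (Finset ι)} {e : ι} : e ∈ un l ↔ ∃ B ∈ l, e ∈ B := by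
  induction l with
  | nil => simp [un]
  | cons B l ih => simp [un] at ih ⊢; rw [ih]

/-- the union of the rows is a random set -/
theorem EL_un (F : Finset ι → ℝ) : EL q m (fun l => F (un l)) = Ex (1 - (1 - q) ^ m) univ F := by
  induction m generalizing F with
  | zero =>
    have : ∀ s : Finset ι, Ex 0 s F = F ∅ := fun s => by
      induction s using Finset.induction_on with
      | empty => simp
      | insert a s h ih => rw [Ex_insert h, ih]; ring
    simp [un, this]
  | succ m ih =>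
    rw [EL_succ]
    simp only [show ∀ (B : Finset ι) l, un (B :: l) = B ∪ un l from fun _ _ => rfl]
    rw [Ex_congr fun B _ => ih fun A => F (B ∪ A), Ex_cup, pow_succ']
    congr 1
    ring

theorem rows_length (m : ℕ) (W : Finset (ℕ × ι)) : (rows m W).length = m := by simp [rows]

theorem rows_succ (m : ℕ) (W : Finset (ℕ × ι)) :
    rows (m + 1) W = rows m W ++ [univ.filter fun e => (m, e) ∈ W] := by
  simp [rows, List.range_succ]

theorem mem_rows {m : ℕ} {W : Finset (ℕ × ι)} {B : Finset ι} :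
    B ∈ rows m W ↔ ∃ j < m, B = univ.filter fun e => (j, e) ∈ W := by
  simp [rows, eq_comm]

/-- lists of rows and sets of cells -/
theorem EL_rows (f : List (Finset ι) → ℝ) :
    EL q m f = Ex q (range m ×ˢ univ) fun W => f (rows m W) := by
  induction m generalizing f with
  | zero => simp [rows]
  | succ m ih =>
    have e : range (m + 1) ×ˢ (univ : Finset ι) =
        range m ×ˢ univ ∪ univ.image fun e => (m, e) := by
      ext ⟨j, e⟩
      simp [eq_comm]
      omega
    rw [EL_append, ih, e, Ex_union (by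
      rw [disjoint_left]
      rintro ⟨j, e⟩ h1 h2
      simp at h1 h2
      omega)]
    refine Ex_congr fun W hW => ?_
    rw [Ex_image fun _ _ _ _ h => (Prod.ext_iff.1 h).2, EL_succ]
    refine Ex_congr fun B _ => ?_
    rw [EL_zero, rows_succ]
    congr 2
    · refine List.map_congr_left fun j hj => ?_
      have := List.mem_range.1 hj
      ext e
      simp
      omega
    · congr 1
      ext e
      have : (m, e) ∉ W := fun h => by simpa using hW h
      simp [this]

theorem EL_perm (ρ : Equiv.Perm ι) (f : List (Finset ι) → ℝ) :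
    EL q m (fun l => f (l.map (image ρ))) = EL q m f := by
  induction m generalizing f with
  | zero => rfl
  | succ m ih =>
    rw [EL_succ, EL_succ]
    conv_rhs => rw [← image_univ_equiv ρ, Ex_image ρ.injective.injOn]
    exact Ex_congr fun B _ => ih fun l => f (B.image ρ :: l)

variable {P Q : List (Finset ι) → Prop}

theorem PL_mono (h0 : 0 ≤ q) (h1 : q ≤ 1) (h : ∀ l, l.length = m → P l → Q l) :
    PL q m P ≤ PL q m Q := EL_mono h0 h1 fun l hl => ind_mono (h l hl)

theorem PL_nonneg (h0 : 0 ≤ q) (h1 : q ≤ 1) : 0 ≤ PL q m P :=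
  EL_nonneg h0 h1 fun _ _ => ind_nonneg _

theorem PL_le_one (h0 : 0 ≤ q) (h1 : q ≤ 1) : PL q m P ≤ 1 := EL_le h0 h1 fun _ _ => ind_le_one _

theorem PL_false (h : ∀ l, l.length = m → ¬P l) : PL q m P = 0 :=
  (EL_congr fun l hl => ind_neg (h l hl)).trans (EL_const 0)

theorem PL_or (h0 : 0 ≤ q) (h1 : q ≤ 1) (P Q : List (Finset ι) → Prop) :
    PL q m (fun l => P l ∨ Q l) ≤ PL q m P + PL q m Q :=
  (EL_mono h0 h1 fun _ _ => ind_or _ _).trans_eq (EL_add _ _)

theorem PL_exists (h0 : 0 ≤ q) (h1 : q ≤ 1) {α : Type} (u : Finset α)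
    (P : α → List (Finset ι) → Prop) : PL q m (fun l => ∃ a ∈ u, P a l) ≤ ∑ a ∈ u, PL q m (P a) :=
  (EL_mono h0 h1 fun _ _ => ind_exists _ _).trans_eq (EL_sum _ _)

/-- the inequality of Markov -/
theorem PL_markov (h0 : 0 ≤ q) (h1 : q ≤ 1) {x : ℝ} (hx : 0 < x) (hf : ∀ l, l.length = m → 0 ≤ f l)
    (h : ∀ l, l.length = m → P l → x ≤ f l) : PL q m P ≤ EL q m f / x := by
  rw [div_eq_inv_mul, ← EL_mul]
  exact EL_mono h0 h1 fun l hl => ind_le (mul_nonneg (inv_nonneg.2 hx.le) (hf l hl)) fun hP => by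
    rw [← div_eq_inv_mul, one_le_div hx]
    exact h l hl hP

theorem PL_append (m k : ℕ) (P : List (Finset ι) → Prop) :
    PL q (m + k) P = EL q m fun l => PL q k fun l' => P (l ++ l') := EL_append _ _ _

/-- an event of the first ticks -/
theorem PL_take (m k : ℕ) (P : List (Finset ι) → Prop) :
    PL q (m + k) (fun l => P (l.take m)) = PL q m P := by
  rw [PL_append]
  refine EL_congr fun l hl => ?_
  rw [PL, EL_congr (g := fun _ => ind (P l)) fun l' _ => by rw [List.take_left' hl], EL_const]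

/-- an event of the last ticks, given the first ones -/
theorem PL_drop (h0 : 0 ≤ q) (h1 : q ≤ 1) (m k : ℕ) (P : List (Finset ι) → List (Finset ι) → Prop)
    {c : ℝ} (h : ∀ l, l.length = m → PL q k (P l) ≤ c) :
    PL q (m + k) (fun l => P (l.take m) (l.drop m)) ≤ c := by
  rw [PL_append]
  refine EL_le h0 h1 fun l hl => le_trans (le_of_eq ?_) (h l hl)
  exact EL_congr fun l' _ => by simp only [List.take_left' hl, List.drop_left' hl]

end EL

section Mart

variable {ι σ : Type} [DecidableEq ι] (M : Mach σ ι)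

@[simp] theorem Mach.at_zero (W : Finset ι) (s : σ) : M.at W s 0 = s := rfl

theorem Mach.at_succ (W : Finset ι) (s : σ) (k : ℕ) : M.at W s (k + 1) = M.at W (M.nx s W) k := rfl

theorem Mach.at_succ' (W : Finset ι) (s : σ) (k : ℕ) :
    M.at W s (k + 1) = M.nx (M.at W s k) W := Function.iterate_succ_apply' _ _ _

theorem Mach.at_inv (W : Finset ι) {s : σ} (h : M.Inv s) (k : ℕ) : M.Inv (M.at W s k) := by
  induction k with
  | zero => exact h
  | succ k ih => rw [M.at_succ']; exact M.inv _ _ ih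

theorem Mach.at_fr (W : Finset ι) {s : σ} (h : M.Inv s) (k : ℕ) : M.fr (M.at W s k) ⊆ M.fr s := by
  induction k with
  | zero => exact Subset.rfl
  | succ k ih =>
    rw [M.at_succ']
    exact ((M.shr _ _ (M.at_inv W h k)).trans sdiff_subset).trans ih

theorem inter_congr {W W' u v : Finset ι} (h : W ∩ u = W' ∩ u) (hv : v ⊆ u) : W ∩ v = W' ∩ v := by
  rw [← inter_eq_right.2 hv, ← inter_assoc, ← inter_assoc, h]

theorem Mach.at_congr {W W' : Finset ι} {s : σ} (h : M.Inv s) (e : W ∩ M.fr s = W' ∩ M.fr s)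
    (k : ℕ) : M.at W s k = M.at W' s k := by
  induction k with
  | zero => rfl
  | succ k ih =>
    rw [M.at_succ', M.at_succ', ← ih, M.loc _ W, M.loc _ W',
      inter_congr e ((M.sub _ (M.at_inv W h k)).trans (M.at_fr W h k))]

/-- supermartingales of an adaptive exploration -/
theorem mart {q : ℝ} (h0 : 0 ≤ q) (h1 : q ≤ 1) (h : σ → Finset ι → ℝ)
    (hl : ∀ s B, h s B = h s (B ∩ M.Q s)) (Φ : σ → ℝ)
    (hΦ : ∀ s, M.Inv s → Ex q (M.Q s) (fun B => Real.exp (h s B) * Φ (M.nx s B)) ≤ Φ s)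
    (k : ℕ) (s : σ) (ρ : Finset ι) (hs : M.Inv s) (hρ : M.fr s ⊆ ρ) :
    Ex q ρ (fun W => Real.exp (∑ i ∈ range k, h (M.at W s i) W) * Φ (M.at W s k)) ≤ Φ s := by
  induction k generalizing s ρ with
  | zero => simp
  | succ k ih =>
    rw [Ex_split ((M.sub s hs).trans hρ)]
    refine le_trans (Ex_mono h0 h1 fun B hB => ?_) (hΦ s hs)
    have hi := M.inv s B hs
    have h2 := ih (M.nx s B) (ρ \ M.Q s) hi ((M.shr s B hs).trans (sdiff_subset_sdiff hρ Subset.rfl))
    refine le_trans (le_of_eq ?_) (mul_le_mul_of_nonneg_left h2 (Real.exp_pos (h s B)).le)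
    rw [← Ex_mul]
    refine Ex_congr fun W hW => ?_
    have e0 : (B ∪ W) ∩ M.Q s = B := union_inter_of hB hW
    have e1 : M.nx s (B ∪ W) = M.nx s B := by rw [M.loc, e0]
    have e2 : (B ∪ W) ∩ M.fr (M.nx s B) = W ∩ M.fr (M.nx s B) := by
      rw [union_inter_distrib_right, disjoint_iff_inter_eq_empty.1, empty_union]
      exact disjoint_left.2 fun x hx hx' => (mem_sdiff.1 (M.shr s B hs hx')).2 (hB hx)
    have e3 := M.at_congr hi e2
    simp only [sum_range_succ', M.at_succ, M.at_zero, e1, e3, Real.exp_add]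
    rw [hl s (B ∪ W), e0, sum_congr rfl fun i _ => show h (M.at W (M.nx s B) i) (B ∪ W) =
      h (M.at W (M.nx s B) i) W by
        rw [hl _ (B ∪ W), hl _ W, inter_congr e2 ((M.sub _ (M.at_inv W hi i)).trans (M.at_fr W hi i))]]
    ring

theorem mart₀ {q : ℝ} (h0 : 0 ≤ q) (h1 : q ≤ 1) (Φ : σ → ℝ)
    (hΦ : ∀ s, M.Inv s → Ex q (M.Q s) (fun B => Φ (M.nx s B)) ≤ Φ s)
    (k : ℕ) (s : σ) (ρ : Finset ι) (hs : M.Inv s) (hρ : M.fr s ⊆ ρ) :
    Ex q ρ (fun W => Φ (M.at W s k)) ≤ Φ s := by
  simpa using mart M h0 h1 (fun _ _ => 0) (fun _ _ => rfl) Φ (by simpa using hΦ) k s ρ hs hρ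

end Mart

/-- the number of small subsets -/
theorem card_small {ι : Type} [DecidableEq ι] (s : Finset ι) {y k : ℝ} (h0 : 0 < y) (h1 : y ≤ 1) :
    ((s.powerset.filter fun A => (A.card : ℝ) ≤ k).card : ℝ) ≤ (1 + y) ^ s.card / y ^ k := by
  rw [le_div_iff₀ (Real.rpow_pos_of_pos h0 k), add_comm, ← sum_pow_mul_eq_add_pow, card_filter_ind,
    sum_mul]
  refine sum_le_sum fun A _ => ?_
  rw [one_pow, mul_one]
  by_cases h : (A.card : ℝ) ≤ k
  · rw [ind_pos h, one_mul, ← Real.rpow_natCast]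
    exact Real.rpow_le_rpow_of_exponent_ge h0 h1 h
  · rw [ind_neg h, zero_mul]
    positivity

end Pool.Agent.MP_81f5b7_pr.H66
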