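import Pool.Agent.MP_81f5b7_pr.H66.Spec

/-! Assembly in the model with ticks. -/

set_option linter.unusedSectionVars false

namespace Pool.Agent.MP_81f5b7_pr.H66

open Finset
open scoped Classical

namespace MAIN

variable {V : Type} [Fintype V] [DecidableEq V]

theorem PL_and {ι : Type} [DecidableEq ι] [Fintype ι] {q x : ℝ} {m : ℕ} {c : Prop}
    {P : List (Finset ι) → Prop} (hx : 0 ≤ x) (h : c → PL q m P ≤ x) :
    PL q m (fun l => c ∧ P l) ≤ x := by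
  by_cases hc : c
  · simpa [hc] using h hc
  · rw [PL_false fun _ _ h => hc h.1]
    exact hx

theorem sz_sum (σ : V → C3) : ∑ a, sz σ univ a = Fintype.card V :=
  (card_eq_sum_card_fiberwise (f := σ) (s := univ) (t := univ) fun _ _ => mem_univ _).symm

/-- the deterministic part -/
theorem det (hS : SSTAR) (hH : SHUB) {τ : V → C3} {Z : Finset V} {K : ℕ} {ε η ηL φ₀ φ₁ : ℝ}
    {l₀ l₁ l₂ : List (Finset (Sym2 V))} {w : V} {σ : V → C3} (hO : Ok τ Z η) (h6 : 6 * η ≤ ηL)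
    (h7 : 6 * η ≤ 1 / 6) (hφ : 0 < φ₀) (hφ' : φ₁ ≤ φ₀) (hn : 0 < Fintype.card V)
    (hK : 3 * K / φ₀ ≤ η * Fintype.card V)
    (hσ : σ ∈ run (S0 τ Z) (l₀ ++ l₁ ++ l₂)) (e1 : NM (l₀ ++ l₁ ++ l₂))
    (e2 : φ₀ * Fintype.card V ≤ (cls (run (S0 τ Z) l₀) w).card)
    (e3 : ∀ (S : Finset (V → C3)) (a : C3), S = (run (S0 τ Z) l₀).filter (fun σ' => σ' w = σ w) →
      S.Nonempty → a ≠ σ w → φ₀ * Fintype.card V ≤ (Fa S (σ w)).card →
      (Fintype.card V : ℝ) / 6 ≤ ((Ty τ Z (-a - σ w)).filter fun v => ¬Fz (run S l₁) v).card →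
      φ₁ * Fintype.card V ≤ (Fa (run S l₁) a).card)
    (e4 : ((BadL τ Z K (un (l₀ ++ l₁))).card : ℝ) ≤ η * Fintype.card V)
    (e5 : ∀ S : Finset (V → C3), S = run ((run (S0 τ Z) l₀).filter fun σ' => σ' w = σ w) l₁ →
      Mj S → S.Nonempty → (∀ a, φ₁ * Fintype.card V ≤ (Fa S a).card) →
      ((univ.filter fun z : V × C3 => (Cl S z).card ≤ K ∧ Hit z S l₂).card : ℝ) ≤
        η * Fintype.card V)
    (e6 : ∀ A : Finset V, (A.card : ℝ) ≤ ηL * Fintype.card V → Z ⊆ A →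
      Star τ Z σ A (l₀ ++ l₁ ++ l₂) → ∀ a b, ∃ D, A ⊆ D ∧ Cld τ Z σ D (l₀ ++ l₁ ++ l₂) ∧
        (sz σ D a : ℝ) - sz σ D b < ε / 2 * Fintype.card V)
    (e7 : ∀ W : Finset V, (∀ B ∈ l₀ ++ l₁ ++ l₂, ∀ x ∈ W, ∀ y ∈ W, x ≠ y → s(x, y) ∉ B) →
      (W.card : ℝ) < ε / 2 * Fintype.card V) (a : C3) :
    (sz σ univ a : ℝ) < (1 / 3 + ε) * Fintype.card V := by
  set n : ℝ := (Fintype.card V : ℝ) with hn'
  have hn0 : 0 < n := by rw [hn']; exact_mod_cast hn
  set Q := cls (run (S0 τ Z) l₀) w with hQ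
  have hQ0 : (0 : ℝ) < Q.card := (mul_pos hφ hn0).trans_le e2
  obtain ⟨u, hu, hB⟩ := hH V τ Z K (un (l₀ ++ l₁)) Q (card_pos.1 (by exact_mod_cast hQ0))
  set Sp := (run (S0 τ Z) l₀).filter fun σ' => σ' w = σ w with hSp
  set S := run Sp l₁ with hS'
  obtain ⟨s1, s2⟩ := hS V τ Z K l₀ l₁ l₂ σ w u S e1 hσ hu rfl
  set Bd := BadV τ Z K (un (l₀ ++ l₁)) u with hBd
  have hB' : (Bd.card : ℝ) ≤ 5 * η * n := by
    have h1 : 3 * n * K / Q.card ≤ 3 * K / φ₀ := by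
      rw [div_le_div_iff₀ hQ0 hφ]
      nlinarith [mul_le_mul_of_nonneg_left e2 (Nat.cast_nonneg (α := ℝ) K)]
    linarith [hO.le.1]
  have hσ0 : σ ∈ run (S0 τ Z) l₀ := by
    rw [List.append_assoc, run_append] at hσ
    exact run_sub _ _ hσ
  have hne : Sp.Nonempty := ⟨σ, mem_filter.2 ⟨hσ0, rfl⟩⟩
  have hF : φ₀ * n ≤ (Fa Sp (σ w)).card :=
    e2.trans (Nat.cast_le.2 (card_le_card fun y hy => mem_Fa.2 fun σ' h' =>
      (mem_cls.1 hy σ' (mem_filter.1 h').1).trans (mem_filter.1 h').2))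
  have hall : ∀ a, φ₁ * n ≤ (Fa S a).card := fun a => by
    by_cases ha : a = σ w
    · rw [ha]
      exact (mul_le_mul_of_nonneg_right hφ' hn0.le).trans
        (hF.trans (Nat.cast_le.2 (card_le_card (Fa_mono (run_sub _ _) _))))
    · refine e3 Sp a rfl hne ha hF ?_
      have h1 : (Ty τ Z (-a - σ w)).card ≤
          ((Ty τ Z (-a - σ w)).filter fun v => ¬Fz S v).card + Bd.card := by
        refine (card_le_card fun v hv => ?_).trans (card_union_le _ _)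
        by_cases h : v ∈ Bd
        · exact mem_union_right _ h
        · exact mem_union_left _ (mem_filter.2 ⟨hv, (s1 v h).1⟩)
      have h2 : ((Ty τ Z (-a - σ w)).card : ℝ) ≤
          ((Ty τ Z (-a - σ w)).filter fun v => ¬Fz S v).card + Bd.card := by exact_mod_cast h1
      nlinarith [hO (-a - σ w)]
  have h5 := e5 S rfl ((((Mj_S0 τ Z).run l₀).pin w (σ w)).run l₁) (run_ne hne l₁) hall
  set Hs := univ.filter fun z : V × C3 => (Cl S z).card ≤ K ∧ Hit z S l₂ with hHs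
  have hA : ((Bd ∪ Hs.image Prod.fst).card : ℝ) ≤ ηL * n := by
    have h1 : ((Bd ∪ Hs.image Prod.fst).card : ℝ) ≤ Bd.card + Hs.card := by
      exact_mod_cast (card_union_le _ _).trans (Nat.add_le_add_left card_image_le _)
    nlinarith
  have hst := s2 (Bd ∪ Hs.image Prod.fst) subset_union_left fun v b h => by
    by_cases hv : v ∈ Bd
    · exact mem_union_left _ hv
    · exact mem_union_right _ (mem_image.2 ⟨(v, b), mem_filter.2 ⟨mem_univ _, (s1 v hv).2 b, h⟩, rfl⟩)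
  obtain ⟨b, hb⟩ : ∃ b, (sz σ univ b : ℝ) ≤ n / 3 := by
    by_contra h
    push Not at h
    have h1 : ((∑ a, sz σ univ a : ℕ) : ℝ) = n := by rw [sz_sum]
    rw [Fin.sum_univ_three] at h1
    push_cast at h1
    linarith [h 0, h 1, h 2]
  obtain ⟨D, d1, d2, d3⟩ := e6 _ hA
    (fun v hv => mem_union_left _ (mem_filter.2 ⟨mem_univ _, Or.inl hv⟩)) hst a b
  have h8 := e7 (univ.filter fun v => v ∉ D ∧ σ v = a) fun B hB x hx y hy hxy he => by
    obtain ⟨la, lb, e⟩ := List.append_of_mem hB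
    refine (mem_filter.1 hx).2.1 (hst la B lb e D d1 (fun B' h' => d2 B' ?_) x y hxy he
      ((mem_filter.1 hx).2.2.trans (mem_filter.1 hy).2.2.symm))
    rw [e]
    exact List.mem_append_left _ h'
  have h9 : (sz σ univ a : ℝ) ≤ sz σ D a + (univ.filter fun v => v ∉ D ∧ σ v = a).card := by
    have : sz σ univ a ≤ sz σ D a + (univ.filter fun v => v ∉ D ∧ σ v = a).card := by
      refine (card_le_card fun v hv => ?_).trans (card_union_le _ _)
      by_cases h : v ∈ D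
      · exact mem_union_left _ (mem_filter.2 ⟨h, (mem_filter.1 hv).2⟩)
      · exact mem_union_right _ (mem_filter.2 ⟨mem_univ _, h, (mem_filter.1 hv).2⟩)
    exact_mod_cast this
  have h10 : (sz σ D b : ℝ) ≤ sz σ univ b :=
    Nat.cast_le.2 (card_le_card (filter_subset_filter _ (subset_univ _)))
  linarith

theorem tm_ceil {q t : ℝ} (hq : Tiny V q) (ht : 0 ≤ t) :
    t ≤ tm V q ⌈t * (Fintype.card V : ℝ) ^ 3⌉₊ ∧
      tm V q ⌈t * (Fintype.card V : ℝ) ^ 3⌉₊ ≤ t + q * Fintype.card V := by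
  have h0 : 0 ≤ q * Fintype.card V := mul_nonneg hq.1.le (Nat.cast_nonneg _)
  have e : t * (Fintype.card V : ℝ) ^ 3 * (q * Fintype.card V) = t := by
    rw [show t * (Fintype.card V : ℝ) ^ 3 * (q * Fintype.card V) =
      t * (q * (Fintype.card V : ℝ) ^ 4) by ring, hq.2, mul_one]
  have h1 := mul_le_mul_of_nonneg_right (Nat.le_ceil (t * (Fintype.card V : ℝ) ^ 3)) h0
  have h2 := mul_le_mul_of_nonneg_right
    (Nat.ceil_lt_add_one (mul_nonneg ht (pow_nonneg (Nat.cast_nonneg (Fintype.card V)) 3))).le h0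
  unfold tm
  rw [mul_assoc]
  constructor <;> nlinarith

theorem tm_add (q : ℝ) (m k : ℕ) : tm V q (m + k) = tm V q m + tm V q k := by
  unfold tm
  push_cast
  ring

theorem large (c κ : ℝ) (hc : 0 < c) (hκ : 0 < κ) :
    ∃ N : ℕ, ∀ n : ℝ, N ≤ n → Real.exp (-(c * n)) ≤ κ := by
  refine ⟨⌈1 / (c * κ)⌉₊, fun n hn => ?_⟩
  have h1 : 1 / (c * κ) ≤ n := (Nat.le_ceil _).trans hn
  rw [div_le_iff₀ (mul_pos hc hκ)] at h1
  rw [Real.exp_neg, inv_le_comm₀ (Real.exp_pos _) hκ, inv_eq_one_div, div_le_iff₀ hκ]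
  nlinarith [mul_le_mul_of_nonneg_right (Real.add_one_le_exp (c * n)) hκ.le]

end MAIN

open MAIN in
theorem rowMAIN : OfMAIN := by
  intro hNM hIND hAUT hIGN hSPD hGROW hSTAR hHUB hLAZY ε κ hε hκ
  obtain ⟨T, hT⟩ := hIND (ε / 2) (half_pos hε)
  obtain ⟨ηL, hηL, hL⟩ := hLAZY (ε / 2) (|T| + 4) (half_pos hε)
  set k := κ / 17 with hk
  have hk0 : 0 < k := by positivity
  set η₁ := min ηL (1 / 6) / 6 with hη₁
  have hη0 : 0 < η₁ := by positivity
  obtain ⟨δ₀, K, ηA, NA, hδ₀, hηA, hA⟩ := hAUT (k * η₁ / 3) (by positivity)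
  set δ := min δ₀ 1 with hδ
  have hδ0 : 0 < δ := lt_min hδ₀ one_pos
  have hδ1 : δ ≤ 1 := min_le_right _ _
  obtain ⟨φ, ηI, NI, hφ, hηI, hI⟩ := hIGN (δ / 2) 3 k (half_pos hδ0) hk0
  obtain ⟨NG, hG⟩ := hGROW (|T| + 4) (δ * φ / 192) k η₁ K (by positivity) hk0 hη0
  obtain ⟨N1, h1⟩ := hNM (|T| + 4) k 0 hk0
  obtain ⟨N6, h6⟩ := hL k hk0
  obtain ⟨N7, h7⟩ := hT k hk0
  obtain ⟨N3, h3⟩ := large (δ * φ / 192) k (by positivity) hk0
  refine ⟨min (min η₁ ηL) (min ηA ηI), NA + NI + NG + N1 + N6 + N7 + N3 + 2 + ⌈8 / δ⌉₊ +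
    ⌈3 * K / φ / η₁⌉₊, by positivity, fun V _ _ τ Z hN hO => ?_⟩
  have o1 : Ok τ Z η₁ := hO.mono ((min_le_left _ _).trans (min_le_left _ _))
  have oL : Ok τ Z ηL := hO.mono ((min_le_left _ _).trans (min_le_right _ _))
  have oA : Ok τ Z ηA := hO.mono ((min_le_right _ _).trans (min_le_left _ _))
  have oI : Ok τ Z ηI := hO.mono ((min_le_right _ _).trans (min_le_right _ _))
  set n : ℝ := (Fintype.card V : ℝ) with hn
  have hn2 : 2 ≤ Fintype.card V := by omega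
  have hn2' : 2 ≤ n := by rw [hn]; exact_mod_cast hn2
  have hn0 : 0 < n := by linarith
  have hq : Tiny V (1 / n ^ 4) := ⟨by positivity, by rw [← hn]; field_simp⟩
  set q := 1 / n ^ 4 with hqd
  obtain ⟨q0, q1, -, -⟩ := hq.le hn2
  have hqn : q * n ≤ δ / 8 := by
    have h8 : 8 / δ ≤ n := (Nat.le_ceil _).trans (by rw [hn]; exact_mod_cast (by omega))
    rw [div_le_iff₀ hδ0] at h8
    have e : q * n = 1 / n ^ 3 := by rw [hqd]; field_simp
    rw [e, div_le_div_iff₀ (by positivity) (by norm_num)]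
    have : n ≤ n ^ 3 := le_self_pow₀ (by linarith) (by norm_num)
    nlinarith
  obtain ⟨a0, b0⟩ := tm_ceil hq (t := 3 / 2 + δ / 2) (by positivity)
  obtain ⟨a1, b1⟩ := tm_ceil hq (t := δ / 4) (by positivity)
  obtain ⟨a2, b2⟩ := tm_ceil hq (t := |T|) (abs_nonneg T)
  generalize ⌈(3 / 2 + δ / 2) * (Fintype.card V : ℝ) ^ 3⌉₊ = m0 at a0 b0
  generalize ⌈δ / 4 * (Fintype.card V : ℝ) ^ 3⌉₊ = m1 at a1 b1
  generalize ⌈|T| * (Fintype.card V : ℝ) ^ 3⌉₊ = m2 at a2 b2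
  rw [← hn] at b0 b1 b2
  have t01 : tm V q (m0 + m1) ≤ 3 / 2 + δ := by rw [tm_add]; linarith
  have tup : tm V q (m0 + m1 + m2) ≤ |T| + 4 := by rw [tm_add]; linarith
  have tlo : T ≤ tm V q (m0 + m1 + m2) := by rw [tm_add, tm_add]; linarith [le_abs_self T]
  refine ⟨q, m0 + m1 + m2, q0, q1, ?_⟩
  have : Nonempty V := Fintype.card_pos_iff.1 (by omega)
  choose! w hw using fun (l : List (Finset (Sym2 V)))
    (h : ∃ v, φ * n ≤ (cls (run (S0 τ Z) l) v).card) => h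
  set Sp : C3 → List (Finset (Sym2 V)) → Finset (V → C3) :=
    fun β l => (run (S0 τ Z) l).filter fun σ' => σ' (w l) = β with hSp
  have p1 := h1 V q _ (by omega) hq tup
  have p6 := h6 V τ Z q _ (by omega) oL hq tup
  have p7 := h7 V q _ (by omega) hq tlo
  have p2 := hI V τ Z q m0 (by omega) oI hq a0 (by linarith)
  rw [← PL_take m0 m1, ← PL_take (m0 + m1) m2] at p2
  have p3 : ∀ z : C3 × C3, PL q (m0 + m1 + m2) (fun l => ((Sp z.2 ((l.take (m0 + m1)).take m0)).Nonempty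
      ∧ z.1 ≠ z.2 ∧ φ * n ≤ (Fa (Sp z.2 ((l.take (m0 + m1)).take m0)) z.2).card) ∧
      ((Fa (run (Sp z.2 ((l.take (m0 + m1)).take m0)) ((l.take (m0 + m1)).drop m0)) z.1).card : ℝ) ≤
        δ * φ / 192 * n ∧ n / 6 ≤ ((Ty τ Z (-z.1 - z.2)).filter fun v =>
          ¬Fz (run (Sp z.2 ((l.take (m0 + m1)).take m0)) ((l.take (m0 + m1)).drop m0)) v).card) ≤ k := by
    intro z
    refine (PL_take (m0 + m1) m2 fun l => ((Sp z.2 (l.take m0)).Nonempty ∧ z.1 ≠ z.2 ∧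
      φ * n ≤ (Fa (Sp z.2 (l.take m0)) z.2).card) ∧
      ((Fa (run (Sp z.2 (l.take m0)) (l.drop m0)) z.1).card : ℝ) ≤ δ * φ / 192 * n ∧
      n / 6 ≤ ((Ty τ Z (-z.1 - z.2)).filter fun v =>
        ¬Fz (run (Sp z.2 (l.take m0)) (l.drop m0)) v).card).trans_le ?_
    refine PL_drop q0 q1 m0 m1 (fun l l' => ((Sp z.2 l).Nonempty ∧ z.1 ≠ z.2 ∧
      φ * n ≤ (Fa (Sp z.2 l) z.2).card) ∧ ((Fa (run (Sp z.2 l) l') z.1).card : ℝ) ≤ δ * φ / 192 * n ∧
      n / 6 ≤ ((Ty τ Z (-z.1 - z.2)).filter fun v => ¬Fz (run (Sp z.2 l) l') v).card)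
      fun l _ => PL_and hk0.le fun h => ?_
    refine (hSPD V τ Z q m1 _ z.1 z.2 (φ * n) (n / 6) _ hn2 hq
      ((filter_subset _ _).trans (run_sub _ _)) h.1 h.2.1 (by positivity) (by positivity)
      h.2.2).trans (le_trans (Real.exp_le_exp.2 ?_) (h3 n (by rw [hn]; exact_mod_cast (by omega))))
    have e : m1 * q * (φ * n) * (n / 6) / 4 = tm V q m1 * (φ * n) / 24 := by
      unfold tm
      ring
    rw [e]
    nlinarith [mul_le_mul_of_nonneg_right a1 (mul_pos hφ hn0).le]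
  have p4 : PL q (m0 + m1 + m2)
      (fun l => η₁ * n ≤ (BadL τ Z K (un (l.take (m0 + m1)))).card) ≤ k := by
    rw [PL_take (m0 + m1) m2 fun l => η₁ * n ≤ (BadL τ Z K (un l)).card]
    refine (PL_markov q0 q1 (mul_pos hη0 hn0) (f := fun l => (BadL τ Z K (un l)).card)
      (fun _ _ => Nat.cast_nonneg _) fun _ _ h => h).trans ?_
    rw [EL_un fun Γ => ((BadL τ Z K Γ).card : ℝ), div_le_iff₀ (mul_pos hη0 hn0)]
    simp only [BadL, card_filter_ind]
    rw [Ex_sum]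
    have r0 : 0 ≤ (1 - q) ^ (m0 + m1) := pow_nonneg (sub_nonneg.2 q1) _
    have r1 : (1 - q) ^ (m0 + m1) ≤ 1 := pow_le_one₀ (sub_nonneg.2 q1) (by linarith)
    have r2 : 1 + ((m0 + m1 : ℕ) : ℝ) * (-q) ≤ (1 + -q) ^ (m0 + m1) :=
      one_add_mul_le_pow (by linarith) _
    rw [← sub_eq_add_neg] at r2
    refine (sum_le_card_nsmul _ _ (k * η₁ / 3) fun z _ => ?_).trans_eq ?_
    · by_cases hz : al τ Z z.1 z.2
      · simp only [hz, true_and]
        refine hA V τ Z _ z (by omega) oA (by linarith) (by linarith) ?_ hz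
        unfold tm at t01
        rw [← hn] at t01 ⊢
        nlinarith [min_le_left δ₀ 1]
      · simp only [hz, false_and, ind_neg not_false, Ex_const]
        positivity
    · rw [card_univ, Fintype.card_prod, Fintype.card_fin, nsmul_eq_mul]
      push_cast
      ring
  have p5 : ∀ β : C3, PL q (m0 + m1 + m2) (fun l =>
      (fun S l' => (Mj S ∧ S.Nonempty ∧ ∀ a, δ * φ / 192 * n ≤ (Fa S a).card) ∧
        η₁ * n ≤ (univ.filter fun z : V × C3 => (Cl S z).card ≤ K ∧ Hit z S l').card)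
        (run (Sp β ((l.take (m0 + m1)).take m0)) ((l.take (m0 + m1)).drop m0))
        (l.drop (m0 + m1))) ≤ k := fun β =>
    PL_drop q0 q1 (m0 + m1) m2 (fun l l' =>
      (fun S l' => (Mj S ∧ S.Nonempty ∧ ∀ a, δ * φ / 192 * n ≤ (Fa S a).card) ∧
        η₁ * n ≤ (univ.filter fun z : V × C3 => (Cl S z).card ≤ K ∧ Hit z S l').card)
        (run (Sp β (l.take m0)) (l.drop m0)) l') fun l _ => PL_and hk0.le fun h =>
      hG V q m2 _ (by omega) hq (by linarith) h.1 h.2.1 h.2.2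
  have p3' := (PL_exists q0 q1 univ _).trans (sum_le_card_nsmul _ _ k fun z _ => p3 z)
  have p5' := (PL_exists q0 q1 univ _).trans (sum_le_card_nsmul _ _ k fun β _ => p5 β)
  have tot := (PL_or q0 q1 _ _).trans (add_le_add p1 ((PL_or q0 q1 _ _).trans (add_le_add p2
    ((PL_or q0 q1 _ _).trans (add_le_add p3' ((PL_or q0 q1 _ _).trans (add_le_add p4
    ((PL_or q0 q1 _ _).trans (add_le_add p5' ((PL_or q0 q1 _ _).trans (add_le_add p6 p7)))))))))))
  refine (PL_mono q0 q1 fun l _ hb => ?_).trans (tot.trans_eq (by simp [hk]; ring))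
  obtain ⟨σ, hσ, a, ha⟩ := hb
  by_contra hc
  simp only [not_or] at hc
  obtain ⟨c1, c2, c3, c4, c5, c6, c7⟩ := hc
  have el : (l.take (m0 + m1)).take m0 ++ (l.take (m0 + m1)).drop m0 ++ l.drop (m0 + m1) = l := by
    rw [List.take_append_drop, List.take_append_drop]
  refine (det (K := K) (ε := ε) (ηL := ηL) (φ₀ := φ) (φ₁ := δ * φ / 192)
    (l₀ := (l.take (m0 + m1)).take m0) (l₁ := (l.take (m0 + m1)).drop m0) (l₂ := l.drop (m0 + m1))
    (w := w ((l.take (m0 + m1)).take m0)) (σ := σ) hSTAR hHUB o1 ?_ ?_ hφ (by nlinarith) (by omega)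
    ?_ (el.symm ▸ hσ) (el.symm ▸ not_not.1 c1.1) (hw _ ?_) ?_ ?_ ?_ ?_ ?_ a).not_ge ha
  · linarith [min_le_left ηL (1 / 6)]
  · linarith [min_le_right ηL (1 / 6)]
  · rw [mul_comm η₁, ← div_le_iff₀ hη0]
    exact (Nat.le_ceil _).trans (Nat.cast_le.2 (by omega))
  · obtain ⟨v, hv⟩ := not_forall.1 c2
    exact ⟨v, (not_le.1 hv).le⟩
  · rintro S a rfl s1 s2 s3 s4
    exact (not_le.1 fun h => c3 ⟨(a, σ _), mem_univ _, ⟨s1, s2, s3⟩, h, s4⟩).le
  · rw [List.take_append_drop]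
    exact (not_le.1 c4).le
  · rintro S rfl s1 s2 s3
    exact (not_le.1 fun h => c5 ⟨σ _, mem_univ _, ⟨s1, s2, s3⟩, h⟩).le
  · rw [el]
    intro A s1 s2 s3 a b
    by_contra h
    push Not at h
    exact c6 ⟨σ, run_sub _ _ hσ, A, s1, s2, s3, a, b, h⟩
  · rw [el]
    exact fun W h => not_le.1 fun h' => c7 ⟨W, h', h⟩

end Pool.Agent.MP_81f5b7_pr.H66
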