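import Pool.Agent.MP_81f5b7_pr.H66.Kit

/-! The greedy process on sets of colourings. -/

set_option linter.unusedSectionVars false

namespace Pool.Agent.MP_81f5b7_pr.H66

open Finset
open scoped Classical

variable {V : Type} [Fintype V] [DecidableEq V] {S S' : Finset (V → C3)} {B : Finset (Sym2 V)}
  {l : List (Finset (Sym2 V))} {σ σ₀ : V → C3} {x y v : V} {τ : V → C3} {Z : Finset V}

@[simp] theorem bi_mk : bi σ s(x, y) ↔ σ x ≠ σ y := by simp [bi]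

theorem gr_single (S : Finset (V → C3)) (e : Sym2 V) :
    gr S {e} = if ∃ σ ∈ S, bi σ e then S.filter fun σ => bi σ e else S := by
  simp [gr]

theorem gr_pair (h : ∃ σ ∈ S, σ x ≠ σ y) : gr S {s(x, y)} = S.filter fun σ => σ x ≠ σ y := by
  rw [gr_single, if_pos (by simpa using h)]
  simp

theorem gr_sub (S : Finset (V → C3)) (B : Finset (Sym2 V)) : gr S B ⊆ S := by
  unfold gr
  split_ifs
  exacts [filter_subset _ _, Subset.rfl]

theorem gr_ne (h : S.Nonempty) (B : Finset (Sym2 V)) : (gr S B).Nonempty := by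
  unfold gr
  split_ifs with h'
  · obtain ⟨σ, h1, h2⟩ := h'.2
    exact ⟨σ, mem_filter.2 ⟨h1, h2⟩⟩
  · exact h

theorem gr_cases (S : Finset (V → C3)) (B : Finset (Sym2 V)) : gr S B = S ∨
    ∃ x y, x ≠ y ∧ B = {s(x, y)} ∧ (∃ σ ∈ S, σ x ≠ σ y) ∧ gr S B = S.filter fun σ => σ x ≠ σ y := by
  by_cases h : B.card ≤ 1 ∧ ∃ σ ∈ S, ∀ e ∈ B, bi σ e
  · rcases (Nat.le_one_iff_eq_zero_or_eq_one.1 h.1).imp card_eq_zero.1 card_eq_one.1 with
      rfl | ⟨e, rfl⟩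
    · left
      simp [gr]
    · induction e using Sym2.ind with
      | _ x y =>
        have h2 : ∃ σ ∈ S, σ x ≠ σ y := by simpa using h.2
        obtain ⟨σ, -, h3⟩ := id h2
        exact Or.inr ⟨x, y, fun e => h3 (by rw [e]), rfl, h2, gr_pair h2⟩
  · exact Or.inl (if_neg h)

/-- a pair on which a survivor has one colour was forced -/
theorem gr_rej (h : σ₀ ∈ gr S {s(x, y)}) (e : σ₀ x = σ₀ y) : ∀ σ ∈ S, σ x = σ y := by
  by_contra h'
  push Not at h'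
  rw [gr_pair h'] at h
  exact (mem_filter.1 h).2 e

@[simp] theorem run_nil (S : Finset (V → C3)) : run S [] = S := rfl

@[simp] theorem run_cons (S : Finset (V → C3)) (B : Finset (Sym2 V)) (l : List (Finset (Sym2 V))) :
    run S (B :: l) = run (gr S B) l := rfl

theorem run_append (S : Finset (V → C3)) (l l' : List (Finset (Sym2 V))) :
    run S (l ++ l') = run (run S l) l' := List.foldl_append

theorem run_snoc (S : Finset (V → C3)) (l : List (Finset (Sym2 V))) (B : Finset (Sym2 V)) :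
    run S (l ++ [B]) = gr (run S l) B := run_append _ _ _

theorem run_sub (S : Finset (V → C3)) (l : List (Finset (Sym2 V))) : run S l ⊆ S := by
  induction l generalizing S with
  | nil => exact Subset.rfl
  | cons B l ih => exact (ih _).trans (gr_sub _ _)

theorem run_ne (h : S.Nonempty) (l : List (Finset (Sym2 V))) : (run S l).Nonempty := by
  induction l generalizing S with
  | nil => exact h
  | cons B l ih => exact ih (gr_ne h B)

theorem mem_gr (h : σ₀ ∈ gr S B) :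
    σ ∈ gr S B ↔ σ ∈ S ∧ (B.card ≤ 1 → (∀ e ∈ B, bi σ₀ e) → ∀ e ∈ B, bi σ e) := by
  unfold gr at h ⊢
  split_ifs at h ⊢ with h'
  · rw [mem_filter] at h ⊢
    exact and_congr_right fun _ => ⟨fun h1 _ _ => h1, fun h1 => h1 h'.1 h.2⟩
  · exact ⟨fun h1 => ⟨h1, fun h2 h3 => absurd ⟨h2, σ₀, h, h3⟩ h'⟩, fun h1 => h1.1⟩

/-- the survivors, seen from one of them -/
theorem mem_run (h : σ₀ ∈ run S l) :
    σ ∈ run S l ↔ σ ∈ S ∧ ∀ B ∈ l, B.card ≤ 1 → (∀ e ∈ B, bi σ₀ e) → ∀ e ∈ B, bi σ e := by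
  induction l generalizing S with
  | nil => simp
  | cons B l ih =>
    rw [run_cons, ih h, mem_gr (run_sub _ _ h), List.forall_mem_cons, and_assoc]

/-- a survivor also survives from a smaller start -/
theorem mem_run_pin (h : σ₀ ∈ run S l) (hS : S' ⊆ S) (h' : σ₀ ∈ S') : σ₀ ∈ run S' l := by
  induction l generalizing S S' with
  | nil => exact h'
  | cons B l ih =>
    have h1 : σ₀ ∈ gr S B := run_sub _ _ h
    have h2 : σ₀ ∈ gr S' B := by
      unfold gr at h1 ⊢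
      split_ifs with h3
      · obtain ⟨h4, σ, h5, h6⟩ := h3
        rw [if_pos ⟨h4, σ, hS h5, h6⟩] at h1
        exact mem_filter.2 ⟨h', (mem_filter.1 h1).2⟩
      · exact h'
    exact ih h (fun σ hσ => (mem_gr h1).2 ((mem_gr h2).1 hσ |>.imp_left fun h => hS h)) h2

theorem mem_S0 : σ ∈ S0 τ Z ↔ ∀ v, al τ Z v (σ v) := by simp [S0]

theorem al_of_mem {c : C3} (h : v ∈ Z) : al τ Z v c ↔ c = τ v := by simp [al, h]

theorem al_of_notMem {c : C3} (h : v ∉ Z) : al τ Z v c ↔ c ≠ τ v := by simp [al, h]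

theorem S0_ne (τ : V → C3) (Z : Finset V) : (S0 τ Z).Nonempty := by
  refine ⟨fun v => if v ∈ Z then τ v else τ v + 1, mem_S0.2 fun v => ?_⟩
  by_cases h : v ∈ Z
  · simp [al, h]
  · simp [al, h]

theorem third {t a b : C3} (h1 : a ≠ t) (h2 : b ≠ t) (h3 : b ≠ a) : b = -t - a := by
  revert t a b
  decide

theorem third_ne {t a : C3} (h : a ≠ t) : -t - a ≠ t ∧ -t - a ≠ a := by
  revert t a
  decide

theorem al_two {a b c : C3} (ha : al τ Z v a) (hb : al τ Z v b) (hc : al τ Z v c) :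
    a = b ∨ a = c ∨ b = c := by
  by_cases h : v ∈ Z
  · exact Or.inl ((ha.1 h).trans (hb.1 h).symm)
  · have h1 := ha.2 h
    have h2 := hb.2 h
    have h3 := hc.2 h
    exact (by decide : ∀ a b c t : C3, a ≠ t → b ≠ t → c ≠ t → a = b ∨ a = c ∨ b = c) _ _ _ _
      h1 h2 h3

theorem Mj_S0 (τ : V → C3) (Z : Finset V) : Mj (S0 τ Z) := by
  intro a ha b hb c hc
  rw [mem_S0] at ha hb hc
  refine ⟨fun v => al_two (ha v) (hb v) (hc v), mem_S0.2 fun v => ?_⟩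
  split_ifs
  exacts [ha v, hc v]

theorem mj_two {a b c a' b' c' : C3} (h : a = b ∨ a = c ∨ b = c) (h' : a' = b' ∨ a' = c' ∨ b' = c') :
    ((if a = b then a else c) = a ∧ (if a' = b' then a' else c') = a') ∨
    ((if a = b then a else c) = b ∧ (if a' = b' then a' else c') = b') ∨
    ((if a = b then a else c) = c ∧ (if a' = b' then a' else c') = c') := by
  revert a b c a' b' c'
  decide

/-- conditions on two vertices keep the closure under majority -/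
theorem Mj.filter (h : Mj S) (x y : V) (R : C3 → C3 → Prop) [∀ σ : V → C3, Decidable (R (σ x) (σ y))] :
    Mj (S.filter fun σ => R (σ x) (σ y)) := by
  intro a ha b hb c hc
  rw [mem_filter] at ha hb hc
  obtain ⟨h1, h2⟩ := h a ha.1 b hb.1 c hc.1
  refine ⟨h1, mem_filter.2 ⟨h2, ?_⟩⟩
  rcases mj_two (h1 x) (h1 y) with ⟨e, e'⟩ | ⟨e, e'⟩ | ⟨e, e'⟩ <;> simp only [e, e']
  exacts [ha.2, hb.2, hc.2]

theorem Mj.pin (h : Mj S) (v : V) (b : C3) : Mj (S.filter fun σ => σ v = b) :=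
  h.filter v v fun c _ => c = b

theorem Mj.gr (h : Mj S) (B : Finset (Sym2 V)) : Mj (gr S B) := by
  rcases gr_cases S B with e | ⟨x, y, -, -, -, e⟩ <;> rw [e]
  exacts [h, h.filter x y (· ≠ ·)]

theorem Mj.run (h : Mj S) (l : List (Finset (Sym2 V))) : Mj (run S l) := by
  induction l generalizing S with
  | nil => exact h
  | cons B l ih => exact ih (h.gr B)

theorem Fz.mono (h : Fz S v) (hS : S' ⊆ S) : Fz S' v := fun a ha b hb => h a (hS ha) b (hS hb)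

theorem mem_Fa {a : C3} : v ∈ Fa S a ↔ ∀ σ ∈ S, σ v = a := by simp [Fa]

theorem Fa_mono (hS : S' ⊆ S) (a : C3) : Fa S a ⊆ Fa S' a :=
  fun _ h => mem_Fa.2 fun σ hσ => mem_Fa.1 h σ (hS hσ)

theorem Fz_of_Fa {a : C3} (h : v ∈ Fa S a) : Fz S v :=
  fun b hb c hc => (mem_Fa.1 h b hb).trans (mem_Fa.1 h c hc).symm

theorem mem_cls : y ∈ cls S v ↔ ∀ σ ∈ S, σ y = σ v := by simp [cls]

theorem cls_mono (hS : S' ⊆ S) (v : V) : cls S v ⊆ cls S' v :=
  fun _ h => mem_cls.2 fun σ hσ => mem_cls.1 h σ (hS hσ)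

theorem mem_Cl {z : V × C3} : v ∈ Cl S z ↔ ¬Fz S z.1 ∧ (∃ σ ∈ S, σ z.1 = z.2) ∧ ¬Fz S v ∧
    ∀ σ ∈ S, ∀ σ' ∈ S, σ z.1 = z.2 → σ' z.1 = z.2 → σ v = σ' v := by simp [Cl]

theorem not_Fz (h : ¬Fz S v) (c : C3) : ∃ σ ∈ S, σ v ≠ c := by
  by_contra h'
  push Not at h'
  exact h fun a ha b hb => (h' a ha).trans (h' b hb).symm

/-- if a new pair of free vertices freezes `v`, both ends were determined by a colour of `v` -/
theorem spont (h : Mj S) (hx : ¬Fz S x) (hy : ¬Fz S y) (hv : ¬Fz S v)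
    (hn : ∃ σ ∈ S, σ x ≠ σ y) (hv' : Fz (S.filter fun σ => σ x ≠ σ y) v) :
    ∃ b, x ∈ Cl S (v, b) ∧ y ∈ Cl S (v, b) := by
  obtain ⟨c, hc, hc'⟩ := hn
  obtain ⟨a, ha, ha'⟩ := not_Fz hv (c v)
  have h1 : ∀ σ ∈ S, σ v = a v → σ x = σ y := fun σ hσ e => by
    by_contra h2
    exact ha' (e ▸ hv' σ (mem_filter.2 ⟨hσ, h2⟩) c (mem_filter.2 ⟨hc, hc'⟩))
  have h2 : ∀ σ ∈ S, ∀ σ' ∈ S, σ v = a v → σ' v = a v → σ x = σ' x := fun σ hσ σ' hσ' e e' => by
    by_contra h3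
    have h4 := h1 _ (h σ hσ σ' hσ' c hc).2 (by simp [e, e'])
    rw [if_neg h3, if_neg (by rwa [← h1 σ hσ e, ← h1 σ' hσ' e'])] at h4
    exact hc' h4
  exact ⟨a v, mem_Cl.2 ⟨hv, ⟨a, ha, rfl⟩, hx, h2⟩, mem_Cl.2 ⟨hv, ⟨a, ha, rfl⟩, hy,
    fun σ hσ σ' hσ' e e' => by rw [← h1 σ hσ e, ← h1 σ' hσ' e', h2 σ hσ σ' hσ' e e']⟩⟩

theorem grow_aux {a b c : C3} (h : a = b ∨ a = c ∨ b = c) (h1 : a ≠ b) (h2 : c ≠ b) : c = a := by
  revert a b c
  decide

/-- growth of the determined set -/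
theorem grow (h : Mj S) {z : V × C3} (hv : v ∈ Cl (S.filter fun σ => σ x ≠ σ y) z) :
    v ∈ Cl S z ∨ (x ∈ Cl S z ∧ ∃ b, v ∈ Cl S (y, b)) ∨ (y ∈ Cl S z ∧ ∃ b, v ∈ Cl S (x, b)) := by
  obtain ⟨h1, ⟨b, hb, hb'⟩, h2, h3⟩ := mem_Cl.1 hv
  have hz : ¬Fz S z.1 := fun h => h1 (h.mono (filter_subset _ _))
  have hv0 : ¬Fz S v := fun h => h2 (h.mono (filter_subset _ _))
  obtain ⟨hbS, hbb⟩ := mem_filter.1 hb
  by_cases h4 : ∀ σ ∈ S, σ z.1 = z.2 → σ v = b v
  · exact Or.inl (mem_Cl.2 ⟨hz, ⟨b, hbS, hb'⟩, hv0, fun σ hσ σ' hσ' e e' => by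
      rw [h4 σ hσ e, h4 σ' hσ' e']⟩)
  push Not at h4
  obtain ⟨a, ha, ha', hav⟩ := h4
  have m1 : ∀ σ ∈ S, σ z.1 = z.2 → σ v ≠ b v → σ x = σ y := fun σ hσ e e' => by
    by_contra h5
    exact e' (h3 σ (mem_filter.2 ⟨hσ, h5⟩) b hb e hb')
  have key : ∀ x' y' : V, (∀ σ : V → C3, σ x' = σ y' ↔ σ x = σ y) → a x' ≠ b x' →
      ∀ σ ∈ S, σ v ≠ b v → σ x' = a x' := fun x' y' hi hne σ hσ e => by
    by_contra h5
    obtain ⟨t, hm⟩ := h a ha b hbS σ hσ
    have h6 := (hi _).2 (m1 _ hm (by simp [ha', hb']) (by rwa [if_neg hav]))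
    have h7 := (hi a).2 (m1 a ha ha' hav)
    have h8 : σ x' = b x' := grow_aux (a := b x') (b := a x') (by
      rcases t x' with t | t | t
      exacts [Or.inl t.symm, Or.inr (Or.inr t), Or.inr (Or.inl t)]) hne.symm h5
    have h9 : b x' ≠ b y' := fun e => hbb ((hi b).1 e)
    simp only [if_neg hne] at h6
    split_ifs at h6 with h10
    · exact h5 (h6.trans h7.symm)
    · have := grow_aux (t y') h10 (by rw [← h6, h8]; exact h9)
      exact h5 (h6.trans (this.trans h7.symm))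
  have fin : ∀ x' y' : V, (∀ σ : V → C3, σ x' = σ y' ↔ σ x = σ y) → a y' ≠ b y' →
      x' ∈ Cl S z ∧ ∃ c, v ∈ Cl S (y', c) := fun x' y' hi hne => by
    have k1 := key y' x' (fun σ => eq_comm.trans (hi σ)) hne
    have h7 := (hi a).2 (m1 a ha ha' hav)
    obtain ⟨c, hc, hc'⟩ := not_Fz h2 (b v)
    obtain ⟨hcS, hcc⟩ := mem_filter.1 hc
    have hcx : c x' ≠ a x' := fun e => hcc ((hi c).1 (by rw [e, h7, k1 c hcS hc']))
    refine ⟨mem_Cl.2 ⟨hz, ⟨b, hbS, hb'⟩, fun hf => hcx (hf c hcS a ha), ?_⟩, b y', mem_Cl.2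
      ⟨fun hf => hne (hf a ha b hbS), ⟨b, hbS, rfl⟩, hv0, ?_⟩⟩
    · suffices hs : ∀ σ ∈ S, σ z.1 = z.2 → σ x' = a x' from
        fun σ hσ σ' hσ' e e' => by rw [hs σ hσ e, hs σ' hσ' e']
      intro σ hσ e
      by_contra h5
      obtain ⟨t, hm⟩ := h a ha σ hσ c hcS
      have hav' : (if a v = σ v then a v else c v) ≠ b v := by split_ifs; exacts [hav, hc']
      have h6 := (hi _).2 (m1 _ hm (by simp [ha', e]) hav')
      rw [if_neg (Ne.symm h5), k1 _ hm hav'] at h6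
      exact hcx (h6.trans h7.symm)
    · suffices hs : ∀ σ ∈ S, σ y' = b y' → σ v = b v from
        fun σ hσ σ' hσ' e e' => by rw [hs σ hσ e, hs σ' hσ' e']
      intro σ hσ e
      by_contra h5
      exact hne ((k1 σ hσ h5).symm.trans e)
  by_cases h5 : a y = b y
  · exact Or.inr (Or.inr (fin y x (fun _ => eq_comm) fun e =>
      hbb (by rw [← e, ← h5, m1 a ha ha' hav])))
  · exact Or.inr (Or.inl (fin x y (fun _ => Iff.rfl) h5))

end Pool.Agent.MP_81f5b7_pr.H66
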