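import Pool.Agent.MP_81f5b7_pr.H66.Sem

/-! Statements of the pieces. -/

set_option linter.unusedSectionVars false

namespace Pool.Agent.MP_81f5b7_pr.H66

open Finset
open scoped Classical

section Aux

variable {V : Type} [Fintype V] [DecidableEq V]

/-- total size of the determined sets -/
noncomputable def AA (S : Finset (V → C3)) : ℕ := ∑ z, (Cl S z).card

/-- its sum along the process -/
noncomputable def lam (q : ℝ) : Finset (V → C3) → List (Finset (Sym2 V)) → ℝ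
  | _, [] => 0
  | S, B :: l => q * AA S + lam q (gr S B) l

/-- signs in the difference of two classes -/
noncomputable def sg (a b : C3) (o : Option C3) (c : C3) : ℝ :=
  o.elim 0 fun c₀ => ind (c = -a - c₀) - ind (c = -b - c₀)

/-- the edges of the first graph -/
def E0 {n : ℕ} (τ : Fin n → C3) : Set (Sym2 (C3 ⊕ Fin n)) :=
  {e | (∃ i j, e = s(Sum.inl i, Sum.inl j)) ∨ ∃ v, e = s(Sum.inl (τ v), Sum.inr v)}

theorem card_sym2_le : (Fintype.card (Sym2 V) : ℝ) ≤ (Fintype.card V : ℝ) ^ 2 := by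
  have : Fintype.card (Sym2 V) ≤ Fintype.card (V × V) :=
    Fintype.card_le_of_surjective (fun p : V × V => s(p.1, p.2)) fun e =>
      Sym2.ind (fun x y => ⟨(x, y), rfl⟩) e
  rw [Fintype.card_prod] at this
  rw [pow_two]
  exact_mod_cast this

theorem Tiny.le {q : ℝ} (h : Tiny V q) (hn : 2 ≤ Fintype.card V) :
    0 ≤ q ∧ q ≤ 1 ∧ q * (Fintype.card V : ℝ) ^ 2 ≤ 1 / 4 ∧ q * Fintype.card (Sym2 V) ≤ 1 / 2 := by
  have h2 : (2 : ℝ) ≤ Fintype.card V := by exact_mod_cast hn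
  have h3 : (4 : ℝ) ≤ (Fintype.card V : ℝ) ^ 2 := by nlinarith
  have h4 : q * (Fintype.card V : ℝ) ^ 2 ≤ 1 / 4 := by
    have := h.2.le
    nlinarith [mul_nonneg h.1.le (sq_nonneg (Fintype.card V : ℝ))]
  refine ⟨h.1.le, by nlinarith [h.1], h4, ?_⟩
  linarith [mul_le_mul_of_nonneg_left (card_sym2_le (V := V)) h.1.le]

theorem mem_Ty {τ : V → C3} {Z : Finset V} {c : C3} {v : V} : v ∈ Ty τ Z c ↔ v ∉ Z ∧ τ v = c := by
  simp [Ty]

theorem card_Ty (τ : V → C3) (Z : Finset V) :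
    Z.card + ∑ c, (Ty τ Z c).card = Fintype.card V := by
  rw [← card_add_card_compl Z, card_eq_sum_card_fiberwise (f := τ) (s := Zᶜ) (t := univ)
    fun _ _ => mem_univ _]
  congr 1
  refine sum_congr rfl fun c _ => congrArg card ?_
  ext v
  simp [Ty]

theorem Ok.mono {τ : V → C3} {Z : Finset V} {η η' : ℝ} (h : Ok τ Z η) (h' : η ≤ η') : Ok τ Z η' :=
  fun c => le_trans (mul_le_mul_of_nonneg_right (by linarith) (Nat.cast_nonneg _)) (h c)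

theorem Ok.le {τ : V → C3} {Z : Finset V} {η : ℝ} (h : Ok τ Z η) :
    (Z.card : ℝ) ≤ 3 * η * Fintype.card V ∧
      ∀ c, ((Ty τ Z c).card : ℝ) ≤ (1 / 3 + 2 * η) * Fintype.card V := by
  have e : (Z.card : ℝ) + ((Ty τ Z 0).card + (Ty τ Z 1).card + (Ty τ Z 2).card) =
      Fintype.card V := by
    rw [← card_Ty τ Z, Fin.sum_univ_three]
    push_cast
    rfl
  have h0 := h 0
  have h1 := h 1
  have h2 := h 2
  have h3 : (0 : ℝ) ≤ Z.card := Nat.cast_nonneg _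
  refine ⟨by linarith, fun c => ?_⟩
  fin_cases c <;> simp only [Fin.zero_eta, Fin.mk_one, Fin.reduceFinMk] <;> linarith

end Aux

/-- ticks with two pairs and early pairs are rare -/
def SNM : Prop :=
  ∀ (T κ : ℝ) (s₀ : ℕ), 0 < κ → ∃ N : ℕ, ∀ (V : Type) [Fintype V] [DecidableEq V] (q : ℝ) (m : ℕ),
    N ≤ Fintype.card V → Tiny V q → tm V q m ≤ T →
    PL q m (fun l : List (Finset (Sym2 V)) => ¬NM l ∨ ∃ B ∈ l.take s₀, B.Nonempty) ≤ κ

/-- no large independent set -/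
def SIND : Prop :=
  ∀ ε : ℝ, 0 < ε → ∃ T : ℝ, ∀ κ : ℝ, 0 < κ → ∃ N : ℕ, ∀ (V : Type) [Fintype V] [DecidableEq V]
    (q : ℝ) (m : ℕ), N ≤ Fintype.card V → Tiny V q → T ≤ tm V q m →
    PL q m (fun l : List (Finset (Sym2 V)) => ∃ W : Finset V, ε * Fintype.card V ≤ W.card ∧
      ∀ B ∈ l, ∀ x ∈ W, ∀ y ∈ W, x ≠ y → s(x, y) ∉ B) ≤ κ

/-- up to just above the threshold most colours lie in small self-contained colourings -/
def SAUT : Prop :=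
  ∀ κ : ℝ, 0 < κ → ∃ (δ : ℝ) (K : ℕ) (η : ℝ) (N : ℕ), 0 < δ ∧ 0 < η ∧
    ∀ (V : Type) [Fintype V] [DecidableEq V] (τ : V → C3) (Z : Finset V) (p : ℝ) (z : V × C3),
    N ≤ Fintype.card V → Ok τ Z η → 0 ≤ p → p ≤ 1 → p * Fintype.card V ≤ 3 / 2 + δ →
    al τ Z z.1 z.2 → Ex p univ (fun Γ => ind (¬Good τ Z K Γ z)) ≤ κ

/-- above the threshold there is a long chain of implications -/
def SPATH : Prop :=
  ∀ δ : ℝ, 0 < δ → ∃ c η : ℝ, 0 < c ∧ 0 < η ∧ ∀ κ : ℝ, 0 < κ → ∃ N : ℕ,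
    ∀ (V : Type) [Fintype V] [DecidableEq V] (τ : V → C3) (Z : Finset V) (p : ℝ),
    N ≤ Fintype.card V → Ok τ Z η → p ≤ 1 → 3 / 2 + δ ≤ p * Fintype.card V →
    Ex p univ (fun Γ => ind (¬∃ (L : ℕ) (v : ℕ → V) (a : ℕ → C3),
      c * Fintype.card V ≤ L ∧ Chain τ Z Γ L v a)) ≤ κ

/-- sprinkling on a chain -/
def SSPR : Prop :=
  ∀ c θ : ℝ, 0 < c → 0 < θ → ∃ r : ℝ, 0 < r ∧ ∀ κ : ℝ, 0 < κ → ∃ N : ℕ,
    ∀ (V : Type) [Fintype V] [DecidableEq V] (τ : V → C3) (Z : Finset V) (q : ℝ) (m : ℕ)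
      (Γ : Finset (Sym2 V)) (L : ℕ) (v : ℕ → V) (a : ℕ → C3),
    N ≤ Fintype.card V → Tiny V q → θ ≤ tm V q m → c * Fintype.card V ≤ L → Chain τ Z Γ L v a →
    PL q m (fun l => ∃ σ ∈ S0 τ Z,
      ((Γ.filter fun e => ¬e.IsDiag ∧ ¬bi σ e).card + mono σ l : ℝ) ≤ r * Fintype.card V) ≤ κ

/-- many rejections need a large class of vertices forced to be equal -/
def SREJ : Prop :=
  ∀ (V : Type) [Fintype V] [DecidableEq V] (q : ℝ) (m : ℕ) (S : Finset (V → C3)) (r k : ℝ),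
    0 ≤ q → q ≤ 1 → 0 < r → 0 ≤ k →
    PL q m (fun l => NM l ∧ (∃ σ ∈ run S l, r ≤ mono σ l) ∧
      ∀ v, ((cls (run S l) v).card : ℝ) ≤ k) ≤ tm V q m * k / r

/-- just above the threshold there is a large class -/
def SIGN : Prop :=
  ∀ δ T κ : ℝ, 0 < δ → 0 < κ → ∃ (φ η : ℝ) (N : ℕ), 0 < φ ∧ 0 < η ∧
    ∀ (V : Type) [Fintype V] [DecidableEq V] (τ : V → C3) (Z : Finset V) (q : ℝ) (m : ℕ),
    N ≤ Fintype.card V → Ok τ Z η → Tiny V q → 3 / 2 + δ ≤ tm V q m → tm V q m ≤ T →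
    PL q m (fun l => ∀ v, ((cls (run (S0 τ Z) l) v).card : ℝ) ≤ φ * Fintype.card V) ≤ κ

/-- one frozen colour produces the others -/
def SSPD : Prop :=
  ∀ (V : Type) [Fintype V] [DecidableEq V] (τ : V → C3) (Z : Finset V) (q : ℝ) (m : ℕ)
    (S : Finset (V → C3)) (a β : C3) (k u y : ℝ), 2 ≤ Fintype.card V → Tiny V q → S ⊆ S0 τ Z →
    S.Nonempty → a ≠ β → 0 ≤ k → 0 ≤ u → k ≤ (Fa S β).card →
    PL q m (fun l => ((Fa (run S l) a).card : ℝ) ≤ y ∧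
      u ≤ ((Ty τ Z (-a - β)).filter fun v => ¬Fz (run S l) v).card) ≤
      Real.exp (y - m * q * k * u / 4)

/-- conservation: freezing pays for the sizes of the determined sets -/
def SLAM : Prop :=
  ∀ (V : Type) [Fintype V] [DecidableEq V] (q : ℝ) (m : ℕ) (S : Finset (V → C3)) (φ : ℝ),
    2 ≤ Fintype.card V → Tiny V q → Mj S → S.Nonempty → 0 < φ →
    (∀ a, φ * Fintype.card V ≤ (Fa S a).card) → EL q m (lam q S) ≤ 2 / φ

/-- a small determined set is rarely hit twice -/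
def SHIT : Prop :=
  ∀ (V : Type) [Fintype V] [DecidableEq V] (q : ℝ) (m : ℕ) (S : Finset (V → C3)) (z : V × C3)
    (M K : ℝ), 0 ≤ q → q ≤ 1 → Mj S → 0 < K →
    PL q m (fun l => lam q S l ≤ M ∧ Hit z S l) ≤ (Cl S z).card * Real.exp M / K + m * q * K ^ 2

/-- after ignition few vertices freeze without a frozen neighbour -/
def SGROW : Prop :=
  ∀ (T φ κ η : ℝ) (K : ℕ), 0 < φ → 0 < κ → 0 < η → ∃ N : ℕ,
    ∀ (V : Type) [Fintype V] [DecidableEq V] (q : ℝ) (m : ℕ) (S : Finset (V → C3)),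
    N ≤ Fintype.card V → Tiny V q → tm V q m ≤ T → Mj S → S.Nonempty →
    (∀ a, φ * Fintype.card V ≤ (Fa S a).card) →
    PL q m (fun l => η * Fintype.card V ≤
      (univ.filter fun z : V × C3 => (Cl S z).card ≤ K ∧ Hit z S l).card) ≤ κ

/-- the exceptional set explains all rejections -/
def SSTAR : Prop :=
  ∀ (V : Type) [Fintype V] [DecidableEq V] (τ : V → C3) (Z : Finset V) (K : ℕ)
    (l₀ l₁ l₂ : List (Finset (Sym2 V))) (σ : V → C3) (w u : V) (S : Finset (V → C3)),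
    NM (l₀ ++ l₁ ++ l₂) → σ ∈ run (S0 τ Z) (l₀ ++ l₁ ++ l₂) → u ∈ cls (run (S0 τ Z) l₀) w →
    S = run ((run (S0 τ Z) l₀).filter fun σ' => σ' w = σ w) l₁ →
    (∀ v ∉ BadV τ Z K (un (l₀ ++ l₁)) u, ¬Fz S v ∧ ∀ b, (Cl S (v, b)).card ≤ K) ∧
    ∀ A : Finset V, BadV τ Z K (un (l₀ ++ l₁)) u ⊆ A → (∀ v b, Hit (v, b) S l₂ → v ∈ A) →
      Star τ Z σ A (l₀ ++ l₁ ++ l₂)

/-- a large set has a vertex that lies in few of the chosen small colourings -/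
def SHUB : Prop :=
  ∀ (V : Type) [Fintype V] [DecidableEq V] (τ : V → C3) (Z : Finset V) (K : ℕ)
    (Γ : Finset (Sym2 V)) (Q : Finset V), Q.Nonempty → ∃ u ∈ Q, ((BadV τ Z K Γ u).card : ℝ) ≤
      Z.card + (BadL τ Z K Γ).card + 3 * Fintype.card V * K / Q.card

/-- bookkeeping of the lazy labelling -/
def SSTEP : Prop :=
  ∀ (V : Type) [Fintype V] [DecidableEq V] (τ : V → C3) (a : C3) (m : ℕ) (A : Finset V)
    (σ : V → C3) (W : Finset (ℕ × Sym2 V)) (t : ℕ → St V), t = lz τ a m A σ W → ∀ (i : ℕ) (c : C3),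
    (t (i + 1)).U τ c + lzX τ a (t i) W c = (t i).U τ c ∧
    (rc a (t i) = none ∨ rc a (t i) = some c → lzX τ a (t i) W c = 0) ∧
    (t (i + 1)).N c = (t i).N c + (if rc a (t i) = some c then 1 else 0) ∧
    (t (i + 1)).L c = (t i).L c + (rc a (t i)).elim 0 (fun c₀ => lzX τ a (t i) W (-c - c₀)) ∧
    ∑ c', (t i).N c' ≤ Fintype.card V * m ∧
    (t 0).N c = 0 ∧ (t 0).U τ c = (univ.filter fun y => y ∉ A ∧ τ y = c).card

/-- the lazy labelling finds the true colours and ends in a closed set -/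
def STRU : Prop :=
  ∀ (V : Type) [Fintype V] [DecidableEq V] (τ : V → C3) (Z : Finset V) (a : C3) (m : ℕ)
    (A : Finset V) (σ : V → C3) (W : Finset (ℕ × Sym2 V)), σ ∈ S0 τ Z → Z ⊆ A →
    Star τ Z σ A (rows m W) → ∃ D, A ⊆ D ∧ Cld τ Z σ D (rows m W) ∧
      ∀ c, (lz τ a m A σ W ((Fintype.card V + 1) * m)).L c = sz σ D c

/-- the colour that goes first has no backlog -/
def SPRI : Prop :=
  ∀ (V : Type) [Fintype V] [DecidableEq V] (τ : V → C3) (a b : C3) (m s₀ : ℕ) (A : Finset V)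
    (σ : V → C3) (W : Finset (ℕ × Sym2 V)) (i : ℕ), 0 < s₀ → NM (rows m W) →
    (∀ B ∈ (rows m W).take (s₀ + 1), ¬B.Nonempty) →
    (lz τ a m A σ W i).N a ≤ (lz τ a m A σ W i).N b →
    ((lz τ a m A σ W i).L a : ℝ) - (lz τ a m A σ W i).L b ≤ A.card + 1 + Fintype.card V / s₀

/-- concentration along the lazy labelling -/
def SCONC : Prop :=
  ∀ (V : Type) [Fintype V] [DecidableEq V] (τ : V → C3) (a : C3) (m : ℕ) (A : Finset V)
    (σ : V → C3) (q : ℝ) (g : St V → C3 → ℝ) (G u x : ℝ) (k : ℕ), 0 ≤ q → q ≤ 1 →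
    (∀ t c, |g t c| ≤ G) → 0 ≤ u → u * G ≤ 1 →
    Ex q (range m ×ˢ univ) (fun W => ind (x ≤ ∑ i ∈ range k, ∑ c, g (lz τ a m A σ W i) c *
      (lzX τ a (lz τ a m A σ W i) W c - q * lzM τ a (lz τ a m A σ W i) c))) ≤
      Real.exp (-(u * x) + (u * G) ^ 2 * (q * Fintype.card V * k))

/-- the last crossing -/
def SCROSS : Prop :=
  ∀ (k : ℕ) (col : ℕ → Option C3) (U X M L : ℕ → C3 → ℝ) (N : ℕ → C3 → ℕ) (q x y : ℝ) (a b : C3),
    a ≠ b → 0 < q → q < 1 → (∀ i c, 0 ≤ U i c) → (∀ i c, 0 ≤ X i c) →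
    (∀ i c, U (i + 1) c + X i c = U i c) → (∀ i c, col i = none ∨ col i = some c → X i c = 0) →
    (∀ i c, M i c = if col i = none ∨ col i = some c then 0 else U i c) →
    (∀ c, N 0 c = 0) → (∀ i c, N (i + 1) c = N i c + if col i = some c then 1 else 0) →
    (∀ i c, L (i + 1) c = L i c + (col i).elim 0 fun c₀ => X i (-c - c₀)) →
    (∀ j ≤ k, |∑ i ∈ range j, ∑ c, sg a b (col i) c * (X i c - q * M i c)| ≤ x) →
    (∀ c, ∀ j ≤ k, |∑ i ∈ range j,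
      (1 - q)⁻¹ ^ (∑ c' ∈ univ.erase c, N i c' + 1) * (X i c - q * M i c)| ≤ x) →
    (∀ j ≤ k, N j a ≤ N j b → L j a - L j b ≤ y) →
    L k a - L k b ≤ y + 2 * x + q * N k (-a - b) * (|U 0 a - U 0 b| + 2 * x)

/-- the closure of a small exceptional set is balanced -/
def SLAZY : Prop :=
  ∀ ε T : ℝ, 0 < ε → ∃ η : ℝ, 0 < η ∧ ∀ κ : ℝ, 0 < κ → ∃ N : ℕ,
    ∀ (V : Type) [Fintype V] [DecidableEq V] (τ : V → C3) (Z : Finset V) (q : ℝ) (m : ℕ),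
    N ≤ Fintype.card V → Ok τ Z η → Tiny V q → tm V q m ≤ T →
    PL q m (fun l => ∃ σ ∈ S0 τ Z, ∃ A : Finset V, (A.card : ℝ) ≤ η * Fintype.card V ∧ Z ⊆ A ∧
      Star τ Z σ A l ∧ ∃ a b, ∀ D, A ⊆ D → Cld τ Z σ D l →
        ε * Fintype.card V ≤ (sz σ D a : ℝ) - sz σ D b) ≤ κ

/-- balance in the model with ticks -/
def SMAIN : Prop :=
  ∀ ε κ : ℝ, 0 < ε → 0 < κ → ∃ (η : ℝ) (N : ℕ), 0 < η ∧
    ∀ (V : Type) [Fintype V] [DecidableEq V] (τ : V → C3) (Z : Finset V),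
    N ≤ Fintype.card V → Ok τ Z η → ∃ (q : ℝ) (m : ℕ), 0 ≤ q ∧ q ≤ 1 ∧
      PL q m (fun l => ∃ σ ∈ run (S0 τ Z) l, ∃ a, (1 / 3 + ε) * Fintype.card V ≤ sz σ univ a) ≤ κ

/-- from ticks to a uniform order of the pairs -/
def SLINK : Prop :=
  ∀ (V : Type) [Fintype V] [DecidableEq V] (S : Finset (V → C3)) (P : (V → C3) → Prop) (q : ℝ)
    (m : ℕ), 0 ≤ q → q ≤ 1 →
    (Nat.card {π : Sym2 V ≃ Fin (Fintype.card (Sym2 V)) // ∃ σ ∈ run S (ordl π), P σ} : ℝ) /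
      Nat.card (Sym2 V ≃ Fin (Fintype.card (Sym2 V))) ≤ PL q m fun l => ∃ σ ∈ run S l, P σ

/-- from graphs to colourings from lists -/
def SGRAPH : Prop :=
  ∀ (n : ℕ) (τ : Fin n → C3) (π : Sym2 (C3 ⊕ Fin n) ≃ Fin (Fintype.card (Sym2 (C3 ⊕ Fin n))))
    (H : SimpleGraph (C3 ⊕ Fin n)),
    (∀ e : Sym2 (C3 ⊕ Fin n), ¬e.IsDiag → (e ∈ H.edgeSet ↔ (SimpleGraph.fromEdgeSet
      (E0 τ ∪ {f | f ∈ H.edgeSet ∧ π f < π e} ∪ {e})).Colorable 3)) →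
    ∀ (c : H.Coloring (Fin 3)) (i : Fin 3),
      ∃ σ ∈ run (S0 (Sum.elim id τ) (univ.image Sum.inl)) (ordl π), ∃ a,
        sz σ univ a = Nat.card {v // c v = i}

def OfIGN : Prop := SNM → SPATH → SSPR → SREJ → SIGN
def OfGROW : Prop := SLAM → SHIT → SGROW
def OfLAZY : Prop := SNM → SSTEP → STRU → SPRI → SCONC → SCROSS → SLAZY
def OfMAIN : Prop := SNM → SIND → SAUT → SIGN → SSPD → SGROW → SSTAR → SHUB → SLAZY → SMAIN

end Pool.Agent.MP_81f5b7_pr.H66
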